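import Pool.Agent.CY.S6.Beta

/-!
The bubble on `ℝⁿ` and its compactly supported approximations.
-/

open MeasureTheory Real Set Filter Topology
open scoped ENNReal ContDiff

namespace Pool.Agent.CY.S6

/-- The bubble `(2/(1+|x|²))^{(n-2)/2}`. -/
noncomputable def bubble (n : ℕ) (x : EuclideanSpace ℝ (Fin n)) : ℝ :=
  (2 / (1 + ‖x‖ ^ 2)) ^ (((n : ℝ) - 2) / 2)

theorem bubble_pos (n : ℕ) (x : EuclideanSpace ℝ (Fin n)) : 0 < bubble n x := by
  unfold bubble
  positivity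

theorem contDiff_base (n : ℕ) :
    ContDiff ℝ ∞ (fun x : EuclideanSpace ℝ (Fin n) => 2 / (1 + ‖x‖ ^ 2)) := by
  apply ContDiff.div contDiff_const
  · exact contDiff_const.add (contDiff_norm_sq ℝ)
  · intro x
    positivity

theorem contDiff_bubble (n : ℕ) : ContDiff ℝ ∞ (bubble n) := by
  unfold bubble
  apply ContDiff.rpow_const_of_ne (contDiff_base n)
  intro x
  positivity

theorem bubble_rpow (n : ℕ) (hn : 3 ≤ n) (x : EuclideanSpace ℝ (Fin n)) :
    bubble n x ^ (2 * (n : ℝ) / ((n : ℝ) - 2)) = (2 / (1 + ‖x‖ ^ 2)) ^ n := by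
  have hn0 : (3 : ℝ) ≤ n := by exact_mod_cast hn
  have h3 : (n : ℝ) - 2 ≠ 0 := by linarith
  unfold bubble
  have : ((n : ℝ) - 2) / 2 * (2 * (n : ℝ) / ((n : ℝ) - 2)) = (n : ℝ) := by field_simp
  rw [← Real.rpow_mul (by positivity), this, Real.rpow_natCast]

theorem bubble_sq (n : ℕ) (hn : 3 ≤ n) (x : EuclideanSpace ℝ (Fin n)) :
    bubble n x ^ 2 = (2 / (1 + ‖x‖ ^ 2)) ^ (n - 2) := by
  have hn0 : (3 : ℝ) ≤ n := by exact_mod_cast hn
  unfold bubble
  have hb : (0 : ℝ) ≤ 2 / (1 + ‖x‖ ^ 2) := by positivity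
  rw [← Real.rpow_natCast ((2 / (1 + ‖x‖ ^ 2)) ^ (((n : ℝ) - 2) / 2)) 2, ← Real.rpow_mul hb,
    ← Real.rpow_natCast (2 / (1 + ‖x‖ ^ 2)) (n - 2), Nat.cast_sub (by omega)]
  congr 1
  push_cast
  ring

/-- The partial derivatives of the bubble. -/
theorem fderiv_bubble (n : ℕ) (x : EuclideanSpace ℝ (Fin n)) (i : Fin n) :
    fderiv ℝ (bubble n) x (EuclideanSpace.single i 1)
      = -((n : ℝ) - 2) * bubble n x * (x i / (1 + ‖x‖ ^ 2)) := by
  have hA : 0 < 1 + ‖x‖ ^ 2 := by positivity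
  have h1 : HasFDerivAt (fun y : EuclideanSpace ℝ (Fin n) => 1 + ‖y‖ ^ 2)
      ((2 : ℝ) • (innerSL ℝ x)) x := by
    have := (hasStrictFDerivAt_norm_sq x).hasFDerivAt.const_add 1
    have e : (2 : ℝ) • (innerSL ℝ x) = (2 : ℕ) • (innerSL ℝ x) := by
      rw [two_smul, two_smul]
    rw [e]
    exact this
  have h2 : HasDerivAt (fun t : ℝ => (2 / t) ^ (((n : ℝ) - 2) / 2))
      ((((n : ℝ) - 2) / 2) * (2 / (1 + ‖x‖ ^ 2)) ^ (((n : ℝ) - 2) / 2 - 1)
        * (-(2 / (1 + ‖x‖ ^ 2) ^ 2))) (1 + ‖x‖ ^ 2) := by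
    have h3 : HasDerivAt (fun t : ℝ => 2 / t) (-(2 / (1 + ‖x‖ ^ 2) ^ 2)) (1 + ‖x‖ ^ 2) := by
      have h4 := (hasDerivAt_inv hA.ne').const_mul 2
      have e : (2 : ℝ) * -((1 + ‖x‖ ^ 2) ^ 2)⁻¹ = -(2 / (1 + ‖x‖ ^ 2) ^ 2) := by ring
      rw [e] at h4
      refine h4.congr_of_eventuallyEq (Filter.Eventually.of_forall fun t => ?_)
      simp only []
      rw [div_eq_mul_inv]
    have h5 := h3.rpow_const (p := ((n : ℝ) - 2) / 2) (Or.inl (by positivity))
    have e2 : -(2 / (1 + ‖x‖ ^ 2) ^ 2) * (((n : ℝ) - 2) / 2)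
        * (2 / (1 + ‖x‖ ^ 2)) ^ (((n : ℝ) - 2) / 2 - 1)
      = (((n : ℝ) - 2) / 2) * (2 / (1 + ‖x‖ ^ 2)) ^ (((n : ℝ) - 2) / 2 - 1)
        * (-(2 / (1 + ‖x‖ ^ 2) ^ 2)) := by ring
    rwa [e2] at h5
  have h6 := h2.comp_hasFDerivAt x h1
  have h7 : fderiv ℝ (bubble n) x = _ := h6.fderiv
  rw [h7]
  simp only [smul_apply, innerSL_apply_apply, smul_eq_mul]
  rw [real_inner_comm, EuclideanSpace.inner_single_left]
  simp only [map_one, one_mul]
  unfold bubble
  have e3 : (2 / (1 + ‖x‖ ^ 2)) ^ (((n : ℝ) - 2) / 2)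
      = (2 / (1 + ‖x‖ ^ 2)) ^ (((n : ℝ) - 2) / 2 - 1) * (2 / (1 + ‖x‖ ^ 2)) := by
    rw [← Real.rpow_add_one (by positivity)]
    congr 1
    ring
  rw [e3]
  field_simp

theorem sum_fderiv_bubble_sq (n : ℕ) (hn : 3 ≤ n) (x : EuclideanSpace ℝ (Fin n)) :
    ∑ i, (fderiv ℝ (bubble n) x (EuclideanSpace.single i 1)) ^ 2
      = (((n : ℝ) - 2) ^ 2 / 4) * ((2 / (1 + ‖x‖ ^ 2)) ^ n * ‖x‖ ^ 2) := by
  have hA : 0 < 1 + ‖x‖ ^ 2 := by positivity
  have h1 : ∀ i, (fderiv ℝ (bubble n) x (EuclideanSpace.single i 1)) ^ 2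
      = (((n : ℝ) - 2) ^ 2 * bubble n x ^ 2 / (1 + ‖x‖ ^ 2) ^ 2) * (x i) ^ 2 := by
    intro i
    rw [fderiv_bubble]
    field_simp
  simp_rw [h1]
  rw [← Finset.mul_sum, bubble_sq n hn]
  have h2 : ∑ i, (x i) ^ 2 = ‖x‖ ^ 2 := by
    rw [EuclideanSpace.norm_sq_eq]
    simp
  rw [h2]
  have h3 : (2 / (1 + ‖x‖ ^ 2)) ^ n = (2 / (1 + ‖x‖ ^ 2)) ^ (n - 2) * (2 / (1 + ‖x‖ ^ 2)) ^ 2 := by
    rw [← pow_add]
    congr 1
    omega
  rw [h3]
  have h4 : (2 / (1 + ‖x‖ ^ 2)) ^ 2 = 4 / (1 + ‖x‖ ^ 2) ^ 2 := by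
    rw [div_pow]
    norm_num
  rw [h4]
  field_simp

/-- The Dirichlet energy of the bubble. -/
theorem energy_bubble (n : ℕ) (hn : 3 ≤ n) :
    4 * ((n : ℝ) - 1) / ((n : ℝ) - 2) *
        ∫ x, ∑ i, (fderiv ℝ (bubble n) x (EuclideanSpace.single i 1)) ^ 2
      = (n : ℝ) * (n - 1) * om n := by
  have hn0 : (3 : ℝ) ≤ n := by exact_mod_cast hn
  have h3 : (n : ℝ) - 2 ≠ 0 := by linarith
  simp_rw [sum_fderiv_bubble_sq n hn]
  rw [integral_const_mul, integral_sphere_sq n hn]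
  field_simp

theorem integrable_sphere_sq (n : ℕ) (hn : 3 ≤ n) :
    Integrable (fun x : EuclideanSpace ℝ (Fin n) => (2 / (1 + ‖x‖ ^ 2)) ^ n * ‖x‖ ^ 2) := by
  by_contra h
  have h1 := integral_undef h
  rw [integral_sphere_sq n hn] at h1
  have hn0 : (3 : ℝ) ≤ n := by exact_mod_cast hn
  have := om_pos n
  have h2 : (0 : ℝ) < (n : ℝ) - 2 := by linarith
  have : 0 < (n : ℝ) / (n - 2) * om n := by positivity
  linarith

theorem mass_bubble (n : ℕ) (hn : 3 ≤ n) :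
    ∫ x, bubble n x ^ (2 * (n : ℝ) / ((n : ℝ) - 2)) = om n := by
  simp_rw [bubble_rpow n hn]
  exact integral_sphere n (by omega)

theorem integrable_bubble_rpow (n : ℕ) (hn : 3 ≤ n) :
    Integrable (fun x => bubble n x ^ (2 * (n : ℝ) / ((n : ℝ) - 2))) := by
  simp_rw [bubble_rpow n hn]
  exact integrable_sphere n (by omega)

theorem integrable_energy_bubble (n : ℕ) (hn : 3 ≤ n) :
    Integrable (fun x => ∑ i, (fderiv ℝ (bubble n) x (EuclideanSpace.single i 1)) ^ 2) := by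
  simp_rw [sum_fderiv_bubble_sq n hn]
  exact (integrable_sphere_sq n hn).const_mul _

/-- The bubble weighted by `1/(1+|x|²)` is integrable: dominates the cutoff errors. -/
theorem integrable_bubble_sq_div (n : ℕ) (hn : 3 ≤ n) :
    Integrable (fun x => bubble n x ^ 2 / (1 + ‖x‖ ^ 2)) := by
  have hn0 : (3 : ℝ) ≤ n := by exact_mod_cast hn
  have hs' : (n : ℝ) / 2 < (n : ℝ) - 1 := by linarith
  refine ((integrable_J n hs').const_mul (2 ^ (n - 2))).congr (Filter.Eventually.of_forall ?_)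
  intro x
  have hA : 0 < 1 + ‖x‖ ^ 2 := by positivity
  simp only []
  rw [bubble_sq n hn, div_pow]
  have e : -((n : ℝ) - 1) = -(((n - 2 : ℕ) : ℝ)) - 1 := by
    rw [Nat.cast_sub (by omega)]
    push_cast
    ring
  rw [e, Real.rpow_sub hA, Real.rpow_one, Real.rpow_neg hA.le, Real.rpow_natCast]
  field_simp

/-- A smooth cutoff at scale `R`. -/
theorem exists_cutoff (n : ℕ) :
    ∃ (χ : ℝ → EuclideanSpace ℝ (Fin n) → ℝ) (M : ℝ), 0 ≤ M ∧
      (∀ R, 1 ≤ R → ContDiff ℝ ∞ (χ R)) ∧ (∀ R, 1 ≤ R → HasCompactSupport (χ R)) ∧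
      (∀ R x, 0 ≤ χ R x ∧ χ R x ≤ 1) ∧
      (∀ R x, 1 ≤ R → ‖x‖ < R → χ R =ᶠ[𝓝 x] fun _ => 1) ∧
      (∀ R x i, 1 ≤ R → |fderiv ℝ (χ R) x (EuclideanSpace.single i 1)|
        ≤ M / √(1 + ‖x‖ ^ 2)) := by
  classical
  let b : ContDiffBump (0 : EuclideanSpace ℝ (Fin n)) :=
    { rIn := 1, rOut := 2, rIn_pos := one_pos, rIn_lt_rOut := by norm_num }
  have hb : ContDiff ℝ ∞ (b : EuclideanSpace ℝ (Fin n) → ℝ) := b.contDiff
  have hbc : HasCompactSupport (b : EuclideanSpace ℝ (Fin n) → ℝ) := b.hasCompactSupport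
  -- a bound for the derivative
  have hfc : Continuous (fderiv ℝ (b : EuclideanSpace ℝ (Fin n) → ℝ)) :=
    hb.continuous_fderiv (by simp)
  have hfs : HasCompactSupport (fderiv ℝ (b : EuclideanSpace ℝ (Fin n) → ℝ)) :=
    hbc.fderiv ℝ
  obtain ⟨C, hC⟩ := hfc.bounded_above_of_compact_support hfs
  have hC0 : 0 ≤ C := le_trans (norm_nonneg _) (hC 0)
  refine ⟨fun R x => b (R⁻¹ • x), 3 * C, by positivity, ?_, ?_, ?_, ?_, ?_⟩
  · intro R hR
    exact hb.comp (contDiff_const_smul R⁻¹)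
  · intro R hR
    have hR0 : R⁻¹ ≠ 0 := by positivity
    exact hbc.comp_homeomorph (Homeomorph.smulOfNeZero R⁻¹ hR0)
  · intro R x
    exact ⟨b.nonneg, b.le_one⟩
  · intro R x hR hx
    have hR0 : 0 < R := by linarith
    have h1 : Metric.ball (0 : EuclideanSpace ℝ (Fin n)) R ∈ 𝓝 x :=
      Metric.isOpen_ball.mem_nhds (by simpa using hx)
    filter_upwards [h1] with y hy
    apply b.one_of_mem_closedBall
    have hy' : ‖y‖ < R := by simpa using hy
    simp only [mem_closedBall_zero_iff, norm_smul, norm_inv, Real.norm_eq_abs, abs_of_pos hR0]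
    show R⁻¹ * ‖y‖ ≤ 1
    rw [inv_mul_le_iff₀ hR0]
    linarith
  · intro R x i hR
    have hR0 : 0 < R := by linarith
    have hd : HasFDerivAt (fun y : EuclideanSpace ℝ (Fin n) => b (R⁻¹ • y))
        ((fderiv ℝ (b : EuclideanSpace ℝ (Fin n) → ℝ) (R⁻¹ • x)).comp
          (R⁻¹ • ContinuousLinearMap.id ℝ _)) x := by
      have h1 : HasFDerivAt (b : EuclideanSpace ℝ (Fin n) → ℝ)
          (fderiv ℝ (b : EuclideanSpace ℝ (Fin n) → ℝ) (R⁻¹ • x)) (R⁻¹ • x) :=
        (hb.differentiable (by simp) _).hasFDerivAt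
      exact h1.comp x ((hasFDerivAt_id x).const_smul R⁻¹)
    rw [hd.fderiv]
    by_cases hx : ‖x‖ ≤ 2 * R
    · have h1 : |((fderiv ℝ (b : EuclideanSpace ℝ (Fin n) → ℝ) (R⁻¹ • x)).comp
          (R⁻¹ • ContinuousLinearMap.id ℝ _)) (EuclideanSpace.single i 1)| ≤ C * R⁻¹ := by
        rw [ContinuousLinearMap.comp_apply, smul_apply,
          ContinuousLinearMap.id_apply, map_smul, smul_eq_mul, abs_mul, abs_of_pos (by positivity),
          mul_comm]
        apply mul_le_mul_of_nonneg_right _ (by positivity)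
        have := (fderiv ℝ (b : EuclideanSpace ℝ (Fin n) → ℝ) (R⁻¹ • x)).le_opNorm
          (EuclideanSpace.single i (1 : ℝ))
        rw [Real.norm_eq_abs] at this
        refine this.trans ?_
        simpa using hC (R⁻¹ • x)
      refine h1.trans ?_
      rw [mul_comm 3 C, mul_div_assoc]
      apply mul_le_mul_of_nonneg_left _ hC0
      rw [inv_eq_one_div, div_le_div_iff₀ hR0 (by positivity), one_mul]
      rw [Real.sqrt_le_left (by positivity)]
      have h2 : ‖x‖ ^ 2 ≤ (2 * R) ^ 2 := by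
        apply pow_le_pow_left₀ (norm_nonneg _) hx
      nlinarith
    · push Not at hx
      have h0 : fderiv ℝ (b : EuclideanSpace ℝ (Fin n) → ℝ) (R⁻¹ • x) = 0 := by
        have hy : R⁻¹ • x ∉ tsupport (b : EuclideanSpace ℝ (Fin n) → ℝ) := by
          rw [b.tsupport_eq]
          simp only [mem_closedBall_zero_iff, norm_smul, norm_inv, Real.norm_eq_abs,
            abs_of_pos hR0, not_le]
          show (2 : ℝ) < R⁻¹ * ‖x‖
          rw [lt_inv_mul_iff₀ hR0]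
          linarith
        by_contra hne
        exact hy (support_fderiv_subset ℝ (by simpa [Function.mem_support] using hne))
      rw [h0]
      simp only [ContinuousLinearMap.zero_comp, zero_apply, abs_zero]
      positivity

/-- Aubin's bubble, cut off: compactly supported smooth functions whose Sobolev quotient is
as close as we like to `n(n-1) ω_n^{2/n}`. -/
theorem bubble_approx (n : ℕ) (hn : 3 ≤ n) {δ : ℝ} (hδ : 0 < δ) :
    ∃ φ : EuclideanSpace ℝ (Fin n) → ℝ, ContDiff ℝ ∞ φ ∧ HasCompactSupport φ ∧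
      (∀ x, 0 ≤ φ x) ∧ 0 < ∫ x, φ x ^ (2 * (n : ℝ) / ((n : ℝ) - 2)) ∧
      4 * ((n : ℝ) - 1) / ((n : ℝ) - 2) *
          ∫ x, ∑ i, (fderiv ℝ φ x (EuclideanSpace.single i 1)) ^ 2
        ≤ ((n : ℝ) * (n - 1) * om n ^ (2 / (n : ℝ)) + δ) *
          (∫ x, φ x ^ (2 * (n : ℝ) / ((n : ℝ) - 2))) ^ (((n : ℝ) - 2) / n) := by
  have hn0 : (3 : ℝ) ≤ n := by exact_mod_cast hn
  have hn2 : (0 : ℝ) < (n : ℝ) - 2 := by linarith
  have hω := om_pos n
  obtain ⟨χ, M, hM, hχd, hχc, hχb, hχ1, hχM⟩ := exists_cutoff n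
  set φ : ℕ → EuclideanSpace ℝ (Fin n) → ℝ := fun k x => bubble n x * χ (k + 1) x with hφ
  have hk1 : ∀ k : ℕ, (1 : ℝ) ≤ (k : ℝ) + 1 := fun k => by
    have : (0 : ℝ) ≤ k := Nat.cast_nonneg k
    linarith
  have hev : ∀ x : EuclideanSpace ℝ (Fin n), ∀ᶠ k : ℕ in atTop, ‖x‖ < (k : ℝ) + 1 := by
    intro x
    filter_upwards [eventually_ge_atTop ⌈‖x‖⌉₊] with k hk
    have h1 : ‖x‖ ≤ (k : ℝ) := (Nat.le_ceil _).trans (by exact_mod_cast hk)
    linarith
  -- derivative of `φ k`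
  have hder : ∀ k x i, fderiv ℝ (φ k) x (EuclideanSpace.single i 1)
      = fderiv ℝ (bubble n) x (EuclideanSpace.single i 1) * χ (k + 1) x
        + bubble n x * fderiv ℝ (χ (k + 1)) x (EuclideanSpace.single i 1) := by
    intro k x i
    have h1 : DifferentiableAt ℝ (bubble n) x := (contDiff_bubble n).differentiable (by simp) x
    have h2 : DifferentiableAt ℝ (χ (k + 1)) x := (hχd _ (hk1 k)).differentiable (by simp) x
    have h3 : fderiv ℝ (φ k) x = _ := fderiv_fun_mul h1 h2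
    rw [h3]
    simp only [add_apply, smul_apply, smul_eq_mul]
    ring
  -- convergence of the energies
  have hE : Tendsto (fun k => ∫ x, ∑ i, (fderiv ℝ (φ k) x (EuclideanSpace.single i 1)) ^ 2) atTop
      (𝓝 (∫ x, ∑ i, (fderiv ℝ (bubble n) x (EuclideanSpace.single i 1)) ^ 2)) := by
    refine tendsto_integral_of_dominated_convergence
      (fun x => 2 * (∑ i, (fderiv ℝ (bubble n) x (EuclideanSpace.single i 1)) ^ 2)
        + (2 * n * M ^ 2) * (bubble n x ^ 2 / (1 + ‖x‖ ^ 2))) ?_ ?_ ?_ ?_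
    · intro k
      have hc : ContDiff ℝ ∞ (φ k) := (contDiff_bubble n).mul (hχd _ (hk1 k))
      have hc' : Continuous (fderiv ℝ (φ k)) := hc.continuous_fderiv (by simp)
      apply Continuous.aestronglyMeasurable
      fun_prop
    · exact ((integrable_energy_bubble n hn).const_mul 2).add
        ((integrable_bubble_sq_div n hn).const_mul _)
    · intro k
      refine Filter.Eventually.of_forall fun x => ?_
      have hA : 0 < 1 + ‖x‖ ^ 2 := by positivity
      rw [Real.norm_eq_abs, abs_of_nonneg (Finset.sum_nonneg fun i _ => sq_nonneg _)]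
      have h1 : ∀ i ∈ (Finset.univ : Finset (Fin n)),
          (fderiv ℝ (φ k) x (EuclideanSpace.single i 1)) ^ 2
          ≤ 2 * (fderiv ℝ (bubble n) x (EuclideanSpace.single i 1)) ^ 2
            + 2 * M ^ 2 * (bubble n x ^ 2 / (1 + ‖x‖ ^ 2)) := by
        intro i _
        rw [hder]
        set a := fderiv ℝ (bubble n) x (EuclideanSpace.single i 1)
        set d := fderiv ℝ (χ (k + 1)) x (EuclideanSpace.single i 1)
        have h2 : d ^ 2 ≤ M ^ 2 / (1 + ‖x‖ ^ 2) := by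
          have h3 := hχM (k + 1) x i (hk1 k)
          have h4 : |d| ^ 2 ≤ (M / √(1 + ‖x‖ ^ 2)) ^ 2 := pow_le_pow_left₀ (abs_nonneg _) h3 2
          rw [sq_abs, div_pow, Real.sq_sqrt hA.le] at h4
          exact h4
        obtain ⟨hc0, hc1⟩ := hχb (k + 1) x
        have h5 : (a * χ (k + 1) x) ^ 2 ≤ a ^ 2 := by
          rw [mul_pow]
          have : χ (k + 1) x ^ 2 ≤ 1 := by nlinarith
          nlinarith [sq_nonneg a]
        have h6 : (bubble n x * d) ^ 2 ≤ M ^ 2 * (bubble n x ^ 2 / (1 + ‖x‖ ^ 2)) := by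
          rw [mul_pow]
          calc bubble n x ^ 2 * d ^ 2 ≤ bubble n x ^ 2 * (M ^ 2 / (1 + ‖x‖ ^ 2)) :=
                mul_le_mul_of_nonneg_left h2 (sq_nonneg _)
            _ = M ^ 2 * (bubble n x ^ 2 / (1 + ‖x‖ ^ 2)) := by ring
        nlinarith [sq_nonneg (a * χ (k + 1) x - bubble n x * d)]
      refine (Finset.sum_le_sum h1).trans ?_
      rw [Finset.sum_add_distrib, ← Finset.mul_sum]
      simp only [Finset.sum_const, Finset.card_univ, Fintype.card_fin, nsmul_eq_mul]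
      apply le_of_eq
      ring
    · refine Filter.Eventually.of_forall fun x => ?_
      refine tendsto_const_nhds.congr' ?_
      filter_upwards [hev x] with k hk
      have h1 : φ k =ᶠ[𝓝 x] bubble n := by
        filter_upwards [hχ1 (k + 1) x (hk1 k) hk] with y hy
        simp only [hφ]
        rw [hy, mul_one]
      rw [h1.fderiv_eq]
  -- convergence of the masses
  set p : ℝ := 2 * (n : ℝ) / ((n : ℝ) - 2) with hp
  have hp0 : 0 < p := by positivity
  have hP : Tendsto (fun k => ∫ x, φ k x ^ p) atTop (𝓝 (om n)) := by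
    rw [← mass_bubble n hn]
    refine tendsto_integral_of_dominated_convergence (fun x => bubble n x ^ p) ?_
      (integrable_bubble_rpow n hn) ?_ ?_
    · intro k
      have hc : Continuous (φ k) := ((contDiff_bubble n).mul (hχd _ (hk1 k))).continuous
      apply Continuous.aestronglyMeasurable
      exact hc.rpow_const fun x => Or.inr hp0.le
    · intro k
      refine Filter.Eventually.of_forall fun x => ?_
      obtain ⟨hc0, hc1⟩ := hχb (k + 1) x
      have hb := bubble_pos n x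
      have h0 : 0 ≤ φ k x := mul_nonneg hb.le hc0
      rw [Real.norm_eq_abs, abs_of_nonneg (Real.rpow_nonneg h0 _)]
      apply Real.rpow_le_rpow h0 _ hp0.le
      exact mul_le_of_le_one_right hb.le hc1
    · refine Filter.Eventually.of_forall fun x => ?_
      refine tendsto_const_nhds.congr' ?_
      filter_upwards [hev x] with k hk
      have h1 := (hχ1 (k + 1) x (hk1 k) hk).self_of_nhds
      simp only [hφ]
      rw [h1, mul_one]
  -- conclusion
  set Y0 : ℝ := (n : ℝ) * (n - 1) * om n ^ (2 / (n : ℝ)) with hY0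
  have hlim : Tendsto (fun k => 4 * ((n : ℝ) - 1) / ((n : ℝ) - 2) *
        (∫ x, ∑ i, (fderiv ℝ (φ k) x (EuclideanSpace.single i 1)) ^ 2)
        - (Y0 + δ) * (∫ x, φ k x ^ p) ^ (((n : ℝ) - 2) / n)) atTop
      (𝓝 ((n : ℝ) * (n - 1) * om n - (Y0 + δ) * om n ^ (((n : ℝ) - 2) / n))) := by
    rw [← energy_bubble n hn]
    apply Tendsto.sub
    · exact hE.const_mul _
    · apply Tendsto.const_mul
      exact hP.rpow_const (Or.inl hω.ne')
  have hneg : (n : ℝ) * (n - 1) * om n - (Y0 + δ) * om n ^ (((n : ℝ) - 2) / n) < 0 := by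
    have h1 : om n ^ (2 / (n : ℝ)) * om n ^ (((n : ℝ) - 2) / n) = om n := by
      rw [← Real.rpow_add hω]
      have : 2 / (n : ℝ) + ((n : ℝ) - 2) / n = 1 := by field_simp; ring
      rw [this, Real.rpow_one]
    have h2 : 0 < om n ^ (((n : ℝ) - 2) / n) := Real.rpow_pos_of_pos hω _
    have h3 : (Y0 + δ) * om n ^ (((n : ℝ) - 2) / n)
        = (n : ℝ) * (n - 1) * om n + δ * om n ^ (((n : ℝ) - 2) / n) := by
      rw [hY0, add_mul, mul_assoc _ (om n ^ (2 / (n : ℝ))), h1]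
    rw [h3]
    have := mul_pos hδ h2
    linarith
  have hev1 := hlim.eventually (gt_mem_nhds hneg)
  have hev2 := hP.eventually (lt_mem_nhds hω)
  obtain ⟨k, hk1', hk2'⟩ := (hev1.and hev2).exists
  refine ⟨φ k, (contDiff_bubble n).mul (hχd _ (hk1 k)), (hχc _ (hk1 k)).mul_left, ?_, hk2', ?_⟩
  · intro x
    exact mul_nonneg (bubble_pos n x).le (hχb _ x).1
  · linarith

/-- The norm of a linear form on the Euclidean space. -/
theorem norm_sq_clm {m : ℕ} (L : V m →L[ℝ] ℝ) :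
    ‖L‖ ^ 2 = ∑ i, (L (EuclideanSpace.single i 1)) ^ 2 := by
  set v := (InnerProductSpace.toDual ℝ (V m)).symm L with hv
  have h1 : ‖L‖ = ‖v‖ := by rw [hv, LinearIsometryEquiv.norm_map]
  have h2 : ∀ i, L (EuclideanSpace.single i 1) = v i := by
    intro i
    have h3 : inner ℝ v (EuclideanSpace.single i (1 : ℝ)) = L (EuclideanSpace.single i 1) := by
      rw [hv, InnerProductSpace.toDual_symm_apply]
    rw [← h3, real_inner_comm, EuclideanSpace.inner_single_left]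
    simp
  rw [h1, EuclideanSpace.norm_sq_eq]
  apply Finset.sum_congr rfl
  intro i _
  rw [h2, Real.norm_eq_abs, sq_abs]

/-- S1c: almost optimal functions with compact support. -/
theorem sobolev_almost (n : ℕ) (hn : 3 ≤ n) (ε : ℝ) (hε : 0 < ε) :
    ∃ u : V n → ℝ, ContDiff ℝ ∞ u ∧ HasCompactSupport u ∧ (∀ x, 0 ≤ u x) ∧ u ≠ 0 ∧
      4 * ((n : ℝ) - 1) / ((n : ℝ) - 2) * ∫ x, ‖fderiv ℝ u x‖ ^ 2 ≤
      (Yn n + ε) * (∫ x, |u x| ^ (2 * (n : ℝ) / ((n : ℝ) - 2))) ^ (((n : ℝ) - 2) / (n : ℝ)) := by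
  have hn0 : (3 : ℝ) ≤ n := by exact_mod_cast hn
  obtain ⟨φ, h1, h2, h3, h4, h5⟩ := bubble_approx n hn hε
  refine ⟨φ, h1, h2, h3, ?_, ?_⟩
  · rintro rfl
    have hp : 2 * (n : ℝ) / ((n : ℝ) - 2) ≠ 0 := by
      have h6 : (0 : ℝ) < (n : ℝ) - 2 := by linarith
      positivity
    simp [Real.zero_rpow hp] at h4
  · simp_rw [norm_sq_clm, abs_of_nonneg (h3 _)]
    exact h5

end Pool.Agent.CY.S6
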