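import Pool.Agent.CY.Defs

/-!
Integrals of powers of `1 + ‖x‖²` over the Euclidean space.
-/

open MeasureTheory Real Set
open scoped ENNReal

namespace Pool.Agent.CY.S6

/-- Laplace representation of a negative power. -/
theorem rpow_neg_eq_integral {A s : ℝ} (hA : 0 < A) (hs : 0 < s) :
    ∫ t in Ioi (0 : ℝ), t ^ (s - 1) * rexp (-(A * t)) = A ^ (-s) * Gamma s := by
  rw [integral_rpow_mul_exp_neg_mul_Ioi hs hA, one_div, Real.inv_rpow hA.le, Real.rpow_neg hA.le]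

theorem integrableOn_rpow_mul_exp {A s : ℝ} (hA : 0 < A) (hs : 0 < s) :
    IntegrableOn (fun t : ℝ => t ^ (s - 1) * rexp (-(A * t))) (Ioi 0) := by
  by_contra h
  have h1 := integral_undef h
  rw [rpow_neg_eq_integral hA hs] at h1
  have : 0 < A ^ (-s) * Gamma s := mul_pos (Real.rpow_pos_of_pos hA _) (Gamma_pos_of_pos hs)
  linarith

theorem integrable_gauss (m : ℕ) {b : ℝ} (hb : 0 < b) :
    Integrable (fun x : EuclideanSpace ℝ (Fin m) => rexp (-b * ‖x‖ ^ 2)) := by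
  by_contra h
  have h1 := integral_undef h
  rw [GaussianFourier.integral_rexp_neg_mul_sq_norm hb] at h1
  have : 0 < (π / b) ^ (Module.finrank ℝ (EuclideanSpace ℝ (Fin m)) / 2 : ℝ) :=
    Real.rpow_pos_of_pos (by positivity) _
  linarith

/-- The main computation, as a `lintegral`. -/
theorem lintegral_J (m : ℕ) {s : ℝ} (hs : (m : ℝ) / 2 < s) :
    ∫⁻ x : EuclideanSpace ℝ (Fin m), ENNReal.ofReal ((1 + ‖x‖ ^ 2) ^ (-s) * Gamma s)
      = ENNReal.ofReal (π ^ ((m : ℝ) / 2) * Gamma (s - m / 2)) := by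
  have hm : (0 : ℝ) ≤ (m : ℝ) / 2 := by positivity
  have hs0 : 0 < s := lt_of_le_of_lt hm hs
  have h1 : ∀ x : EuclideanSpace ℝ (Fin m),
      ENNReal.ofReal ((1 + ‖x‖ ^ 2) ^ (-s) * Gamma s)
        = ∫⁻ t in Ioi (0 : ℝ), ENNReal.ofReal (t ^ (s - 1) * rexp (-((1 + ‖x‖ ^ 2) * t))) := by
    intro x
    have hA : 0 < 1 + ‖x‖ ^ 2 := by positivity
    rw [← rpow_neg_eq_integral hA hs0]
    refine ofReal_integral_eq_lintegral_ofReal (integrableOn_rpow_mul_exp hA hs0) ?_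
    refine (ae_restrict_iff' measurableSet_Ioi).2 (Filter.Eventually.of_forall ?_)
    intro t ht
    exact mul_nonneg (Real.rpow_nonneg (le_of_lt ht) _) (exp_pos _).le
  simp_rw [h1]
  rw [lintegral_lintegral_swap]
  swap
  · apply Measurable.aemeasurable
    fun_prop
  have h2 : ∀ t ∈ Ioi (0 : ℝ),
      ∫⁻ x : EuclideanSpace ℝ (Fin m), ENNReal.ofReal (t ^ (s - 1) * rexp (-((1 + ‖x‖ ^ 2) * t)))
        = ENNReal.ofReal (π ^ ((m : ℝ) / 2) * (t ^ ((s - m / 2) - 1) * rexp (-(1 * t)))) := by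
    intro t ht
    have ht0 : 0 < t := ht
    have e1 : ∀ x : EuclideanSpace ℝ (Fin m),
        t ^ (s - 1) * rexp (-((1 + ‖x‖ ^ 2) * t))
          = (t ^ (s - 1) * rexp (-t)) * rexp (-t * ‖x‖ ^ 2) := by
      intro x
      rw [mul_assoc, ← Real.exp_add]
      congr 2
      ring
    simp_rw [e1]
    rw [← ofReal_integral_eq_lintegral_ofReal ((integrable_gauss m ht0).const_mul _)]
    · rw [integral_const_mul, GaussianFourier.integral_rexp_neg_mul_sq_norm ht0]
      congr 1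
      have e2 : (Module.finrank ℝ (EuclideanSpace ℝ (Fin m)) : ℝ) = m := by simp
      rw [e2, Real.div_rpow pi_pos.le ht0.le, one_mul]
      have e3 : s - (m : ℝ) / 2 - 1 = (s - 1) - (m : ℝ) / 2 := by ring
      rw [e3, Real.rpow_sub ht0 (s - 1) ((m : ℝ) / 2)]
      field_simp
    · refine Filter.Eventually.of_forall fun x => ?_
      have := Real.rpow_nonneg ht0.le (s - 1)
      positivity
  rw [setLIntegral_congr_fun measurableSet_Ioi h2]
  have hs1 : 0 < s - m / 2 := by linarith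
  rw [← ofReal_integral_eq_lintegral_ofReal]
  · rw [integral_const_mul, rpow_neg_eq_integral one_pos hs1]
    simp
  · exact (integrableOn_rpow_mul_exp one_pos hs1).const_mul _
  · refine (ae_restrict_iff' measurableSet_Ioi).2 (Filter.Eventually.of_forall ?_)
    intro t ht
    have h0 : (0 : ℝ) < t := ht
    have := Real.rpow_nonneg h0.le (s - m / 2 - 1)
    have h3 := Real.rpow_nonneg pi_pos.le ((m : ℝ) / 2)
    simp only [Pi.zero_apply]
    positivity

theorem integrable_J (m : ℕ) {s : ℝ} (hs : (m : ℝ) / 2 < s) :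
    Integrable (fun x : EuclideanSpace ℝ (Fin m) => (1 + ‖x‖ ^ 2) ^ (-s)) := by
  have hm : (0 : ℝ) ≤ (m : ℝ) / 2 := by positivity
  have hs0 : 0 < s := lt_of_le_of_lt hm hs
  have hG : 0 < Gamma s := Gamma_pos_of_pos hs0
  have h : Integrable (fun x : EuclideanSpace ℝ (Fin m) => (1 + ‖x‖ ^ 2) ^ (-s) * Gamma s) := by
    refine ⟨?_, ?_⟩
    · apply Measurable.aestronglyMeasurable
      fun_prop
    · rw [hasFiniteIntegral_iff_ofReal, lintegral_J m hs]
      · exact ENNReal.ofReal_lt_top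
      · refine Filter.Eventually.of_forall fun x => ?_
        simp only [Pi.zero_apply]
        positivity
  have := h.mul_const (Gamma s)⁻¹
  refine this.congr (Filter.Eventually.of_forall fun x => ?_)
  simp only []
  rw [mul_assoc, mul_inv_cancel₀ hG.ne', mul_one]

/-- `∫ (1+|x|²)^{-s} dx = π^{m/2} Γ(s - m/2) / Γ(s)` for `s > m/2`. -/
theorem integral_J (m : ℕ) {s : ℝ} (hs : (m : ℝ) / 2 < s) :
    ∫ x : EuclideanSpace ℝ (Fin m), (1 + ‖x‖ ^ 2) ^ (-s)
      = π ^ ((m : ℝ) / 2) * Gamma (s - m / 2) / Gamma s := by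
  have hm : (0 : ℝ) ≤ (m : ℝ) / 2 := by positivity
  have hs0 : 0 < s := lt_of_le_of_lt hm hs
  have hG : 0 < Gamma s := Gamma_pos_of_pos hs0
  have hs1 : 0 < s - m / 2 := by linarith
  have h1 : ∫ x : EuclideanSpace ℝ (Fin m), (1 + ‖x‖ ^ 2) ^ (-s) * Gamma s
      = π ^ ((m : ℝ) / 2) * Gamma (s - m / 2) := by
    rw [integral_eq_lintegral_of_nonneg_ae, lintegral_J m hs, ENNReal.toReal_ofReal]
    · have h2 := (Gamma_pos_of_pos hs1).le
      have h3 := Real.rpow_nonneg pi_pos.le ((m : ℝ) / 2)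
      positivity
    · refine Filter.Eventually.of_forall fun x => ?_
      simp only [Pi.zero_apply]
      positivity
    · apply Measurable.aestronglyMeasurable
      fun_prop
  rw [integral_mul_const] at h1
  rw [eq_div_iff hG.ne', h1]

theorem om_pos (k : ℕ) : 0 < om k := by
  unfold om
  have h1 : 0 < Gamma (((k : ℝ) + 1) / 2) := Gamma_pos_of_pos (by positivity)
  have h2 : 0 < π ^ (((k : ℝ) + 1) / 2) := Real.rpow_pos_of_pos pi_pos _
  positivity

/-- `2^m π^{m/2} Γ(m/2) / Γ(m) = ω_m`. -/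
theorem gamma_dup (m : ℕ) (hm : 0 < m) :
    (2 : ℝ) ^ m * (π ^ ((m : ℝ) / 2) * Gamma ((m : ℝ) / 2) / Gamma m) = om m := by
  have hm0 : (0 : ℝ) < m := by exact_mod_cast hm
  have h := Real.Gamma_mul_Gamma_add_half ((m : ℝ) / 2)
  have e1 : 2 * ((m : ℝ) / 2) = m := by ring
  have e2 : (m : ℝ) / 2 + 1 / 2 = ((m : ℝ) + 1) / 2 := by ring
  rw [e1, e2] at h
  have hG1 : 0 < Gamma ((m : ℝ) / 2) := Gamma_pos_of_pos (by positivity)
  have hG2 : 0 < Gamma (((m : ℝ) + 1) / 2) := Gamma_pos_of_pos (by positivity)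
  have hG3 : 0 < Gamma (m : ℝ) := Gamma_pos_of_pos hm0
  unfold om
  have e3 : π ^ (((m : ℝ) + 1) / 2) = π ^ ((m : ℝ) / 2) * √π := by
    rw [Real.sqrt_eq_rpow, ← Real.rpow_add pi_pos]
    congr 1
    ring
  have e4 : (2 : ℝ) ^ (1 - (m : ℝ)) = 2 / 2 ^ m := by
    rw [Real.rpow_sub two_pos, Real.rpow_one, Real.rpow_natCast]
  rw [e4] at h
  rw [e3]
  have hs : 0 < √π := Real.sqrt_pos.2 pi_pos
  have hp : 0 < π ^ ((m : ℝ) / 2) := Real.rpow_pos_of_pos pi_pos _
  have h2 : (0 : ℝ) < 2 ^ m := by positivity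
  field_simp
  field_simp at h
  linear_combination h

/-- The volume of the round sphere `S^m` in stereographic coordinates. -/
theorem integral_sphere (m : ℕ) (hm : 0 < m) :
    ∫ x : EuclideanSpace ℝ (Fin m), (2 / (1 + ‖x‖ ^ 2)) ^ m = om m := by
  have hm0 : (0 : ℝ) < m := by exact_mod_cast hm
  have hs : (m : ℝ) / 2 < m := by linarith
  have h1 : ∀ x : EuclideanSpace ℝ (Fin m),
      (2 / (1 + ‖x‖ ^ 2)) ^ m = 2 ^ m * (1 + ‖x‖ ^ 2) ^ (-(m : ℝ)) := by
    intro x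
    have hA : 0 < 1 + ‖x‖ ^ 2 := by positivity
    rw [div_pow, Real.rpow_neg hA.le, Real.rpow_natCast]
    rfl
  simp_rw [h1]
  rw [integral_const_mul, integral_J m hs]
  have e : (m : ℝ) - m / 2 = m / 2 := by ring
  rw [e, gamma_dup m hm]

theorem integrable_sphere (m : ℕ) (hm : 0 < m) :
    Integrable (fun x : EuclideanSpace ℝ (Fin m) => (2 / (1 + ‖x‖ ^ 2)) ^ m) := by
  by_contra h
  have h1 := integral_undef h
  rw [integral_sphere m hm] at h1
  have := om_pos m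
  linarith

/-- `∫ (1+|x|²)^{-n} |x|² = n/(n-2) ∫ (1+|x|²)^{-n}` in dimension `n ≥ 3`
(as used for the Dirichlet energy of the bubble). -/
theorem integral_sphere_sq (n : ℕ) (hn : 3 ≤ n) :
    ∫ x : EuclideanSpace ℝ (Fin n), (2 / (1 + ‖x‖ ^ 2)) ^ n * ‖x‖ ^ 2
      = n / (n - 2) * om n := by
  have hn0 : (3 : ℝ) ≤ n := by exact_mod_cast hn
  have hs : (n : ℝ) / 2 < n := by linarith
  have hs' : (n : ℝ) / 2 < (n : ℝ) - 1 := by linarith
  have h1 : ∀ x : EuclideanSpace ℝ (Fin n),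
      (2 / (1 + ‖x‖ ^ 2)) ^ n * ‖x‖ ^ 2
        = 2 ^ n * (1 + ‖x‖ ^ 2) ^ (-((n : ℝ) - 1)) - 2 ^ n * (1 + ‖x‖ ^ 2) ^ (-(n : ℝ)) := by
    intro x
    have hA : 0 < 1 + ‖x‖ ^ 2 := by positivity
    have e : -((n : ℝ) - 1) = -(n : ℝ) + 1 := by ring
    rw [div_pow, e, Real.rpow_add hA, Real.rpow_one, Real.rpow_neg hA.le, Real.rpow_natCast]
    field_simp
    ring
  simp_rw [h1]
  rw [integral_sub ((integrable_J n hs').const_mul _) ((integrable_J n hs).const_mul _),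
    integral_const_mul, integral_const_mul, integral_J n hs, integral_J n hs']
  have e : (n : ℝ) - n / 2 = n / 2 := by ring
  rw [e, gamma_dup n (by omega), ← gamma_dup n (by omega)]
  have e1 : (n : ℝ) - 1 - n / 2 = n / 2 - 1 := by ring
  have e2 : Gamma ((n : ℝ) / 2) = ((n : ℝ) / 2 - 1) * Gamma ((n : ℝ) / 2 - 1) := by
    have := Real.Gamma_add_one (s := (n : ℝ) / 2 - 1) (by linarith)
    rwa [sub_add_cancel] at this
  have e3 : Gamma (n : ℝ) = ((n : ℝ) - 1) * Gamma ((n : ℝ) - 1) := by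
    have := Real.Gamma_add_one (s := (n : ℝ) - 1) (by linarith)
    rwa [sub_add_cancel] at this
  rw [e1, e2, e3]
  have hG1 : 0 < Gamma ((n : ℝ) / 2 - 1) := Gamma_pos_of_pos (by linarith)
  have hG2 : 0 < Gamma ((n : ℝ) - 1) := Gamma_pos_of_pos (by linarith)
  have h3 : (n : ℝ) - 2 ≠ 0 := by linarith
  have h4 : (n : ℝ) - 1 ≠ 0 := by linarith
  field_simp
  ring

end Pool.Agent.CY.S6
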