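import Pool.Agent.CY.S6.HemiMan

/-!
Project CY, part S6: the round metric of the hemisphere, with the components `(2/(1+|y|²))² δ` in both charts.

PLAN.  `round_posDef`: a positive multiple of the identity (`Matrix.PosDef.one.smul`, or `Matrix.posDef_diagonal_iff`).
`round_compat`: `e = stereo σ`, `e' = stereo σ'`.  If `σ' = σ`: `co e (pt e z) = z` on `dom e` (`co_pt`), so the
partial derivatives are Kronecker deltas (`Dom.pd_congr`, `pd_coord`).  If `σ' = -σ`: `y ∈ dom2 e e'`, so `y ≠ 0`;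
`co e' (pt e z) = tr e e' z = (‖z‖²)⁻¹ • z` (`tr_stereo`), `pd_inversion` on the domain `dom2 e e'`
(`dom_chart2`), and `∑_k (δ_ik/r² - 2 y_i y_k/r⁴)(δ_jk/r² - 2 y_j y_k/r⁴) = δ_ij/r⁴`, `r = ‖y‖`; finally
`(2/(1+1/r²))²/r⁴ = (2/(1+r²))²` (`‖(r²)⁻¹ • y‖² = r⁻²`).
-/

set_option autoImplicit false

open scoped Manifold ContDiff
open MeasureTheory Set Filter Topology

namespace Pool.Agent.CY

/-- The round metric in stereographic coordinates. -/
noncomputable def roundG (m : ℕ) : MF m := fun y => (2 / (1 + ‖y‖ ^ 2)) ^ 2 • (1 : Matrix (Fin m) (Fin m) ℝ)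

theorem roundG_apply {m : ℕ} (y : V m) (i j : Fin m) :
    roundG m y i j = (2 / (1 + ‖y‖ ^ 2)) ^ 2 * (if i = j then 1 else 0) := by
  simp [roundG, Matrix.one_apply]

theorem round_posDef {m : ℕ} (y : V m) : (roundG m y).PosDef := by
  have h : (0 : ℝ) < (2 / (1 + ‖y‖ ^ 2)) ^ 2 := by positivity
  exact Matrix.PosDef.one.smul h

theorem round_smooth {m : ℕ} {k : WithTop ℕ∞} (i j : Fin m) : ContDiff ℝ k (fun y => roundG m y i j) := by
  have h1 : (fun y : V m => roundG m y i j) =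
      fun y => (2 / (1 + ‖y‖ ^ 2)) ^ 2 * (if i = j then 1 else 0) := by
    funext y
    exact roundG_apply y i j
  rw [h1]
  have h2 : ContDiff ℝ k (fun y : V m => 2 / (1 + ‖y‖ ^ 2)) := by
    refine contDiff_const.div (contDiff_const.add (contDiff_norm_sq ℝ)) fun y => ?_
    positivity
  exact (h2.pow 2).mul contDiff_const

variable {n : ℕ}

private theorem sum_delta {m : ℕ} (c : ℝ) (a b : Fin m → ℝ) :
    ∑ k, ∑ l, a k * b l * (c * (if k = l then 1 else 0)) = c * ∑ k, a k * b k := by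
  rw [Finset.mul_sum]
  refine Finset.sum_congr rfl fun k _ => ?_
  simp
  ring

private theorem sum_inv {m : ℕ} (y : V m) (hy : ‖y‖ ^ 2 ≠ 0) (i j : Fin m) :
    ∑ k, ((if i = k then (‖y‖ ^ 2)⁻¹ else 0) - 2 * y i * y k / (‖y‖ ^ 2) ^ 2) *
      ((if j = k then (‖y‖ ^ 2)⁻¹ else 0) - 2 * y j * y k / (‖y‖ ^ 2) ^ 2) =
      ((‖y‖ ^ 2)⁻¹) ^ 2 * (if i = j then 1 else 0) := by
  have hn : ∑ k, y k * y k = ‖y‖ ^ 2 := by
    rw [EuclideanSpace.norm_sq_eq]
    exact Finset.sum_congr rfl fun k _ => by rw [Real.norm_eq_abs, sq_abs, sq]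
  set r : ℝ := ‖y‖ ^ 2 with hr
  have h1 : ∀ k, ((if i = k then r⁻¹ else 0) - 2 * y i * y k / r ^ 2) *
      ((if j = k then r⁻¹ else 0) - 2 * y j * y k / r ^ 2) =
      (if i = k then r⁻¹ * (if j = i then r⁻¹ else 0) else 0) -
      (if i = k then r⁻¹ * (2 * y j * y i / r ^ 2) else 0) -
      (if j = k then r⁻¹ * (2 * y i * y j / r ^ 2) else 0) +
      4 * y i * y j / r ^ 4 * (y k * y k) := by
    intro k
    by_cases h1 : i = k
    · subst h1
      by_cases h2 : j = i
      · subst h2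
        simp only [if_true]
        ring
      · simp only [if_true, h2, if_false]
        ring
    · by_cases h2 : j = k
      · subst h2
        simp only [h1, if_false, if_true]
        ring
      · simp only [h1, h2, if_false]
        ring
  simp only [h1]
  rw [Finset.sum_add_distrib, Finset.sum_sub_distrib, Finset.sum_sub_distrib, ← Finset.mul_sum, hn]
  simp only [Finset.sum_ite_eq, Finset.mem_univ, if_true]
  by_cases h2 : i = j
  · subst h2
    simp only [if_true]
    field_simp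
    ring
  · have h3 : ¬ j = i := fun h => h2 h.symm
    simp only [h2, h3, if_false]
    field_simp
    ring

theorem round_compat : ∀ e ∈ atlas (EuclideanHalfSpace (n + 1)) (Hemi n),
    ∀ e' ∈ atlas (EuclideanHalfSpace (n + 1)) (Hemi n),
    ∀ y ∈ dom e, pt e y ∈ e'.source → ∀ i j, roundG (n + 1) y i j =
      ∑ k, ∑ l, pd (Hs n) i (fun z => co e' (pt e z) k) y * pd (Hs n) j (fun z => co e' (pt e z) l) y *
        roundG (n + 1) (co e' (pt e y)) k l := by
  intro e he e' he' y hy hye i j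
  obtain ⟨σ, hσ, rfl⟩ := mem_atlas_hemi he
  obtain ⟨σ', hσ', rfl⟩ := mem_atlas_hemi he'
  have hcase : σ' = σ ∨ σ' = -σ := by
    have h1 : (σ' - σ) * (σ' + σ) = 0 := by linear_combination hσ' - hσ
    rcases mul_eq_zero.1 h1 with h2 | h2
    · left; linarith
    · right; linarith
  rcases hcase with rfl | rfl
  · have hD := dom_chart (stereo σ' hσ : OpenPartialHomeomorph (Hemi n) (EuclideanHalfSpace (n + 1)))
    have h1 : ∀ i k, pd (Hs n) i (fun z => co (stereo σ' hσ')
        (pt (stereo σ' hσ : OpenPartialHomeomorph (Hemi n) _) z) k) y = if i = k then 1 else 0 := by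
      intro i k
      rw [hD.pd_congr i (g := fun z => z k) (fun z hz => by
        show (co (stereo σ' hσ) (pt (stereo σ' hσ) z)) k = z k
        rw [co_pt _ hz]) hy, pd_coord hD hy]
    simp only [h1]
    have h2 : co (stereo σ' hσ') (pt (stereo σ' hσ : OpenPartialHomeomorph (Hemi n) _) y) = y := co_pt _ hy
    rw [h2]
    simp
  · have hy2 : y ∈ dom2 (stereo σ hσ : OpenPartialHomeomorph (Hemi n) (EuclideanHalfSpace (n + 1)))
        (stereo (-σ) hσ') := ⟨hy, hye⟩
    have hD := dom_chart2 (stereo σ hσ : OpenPartialHomeomorph (Hemi n) (EuclideanHalfSpace (n + 1)))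
      (stereo (-σ) hσ')
    have h0 : ∀ z ∈ dom2 (stereo σ hσ : OpenPartialHomeomorph (Hemi n) (EuclideanHalfSpace (n + 1)))
        (stereo (-σ) hσ'), z ≠ 0 := fun z hz => ((mem_dom2_stereo σ hσ hσ').1 hz).2
    have hyH : y ∈ Hs n := ((mem_dom2_stereo σ hσ hσ').1 hy2).1
    have hy0 : y ≠ 0 := h0 y hy2
    have h1 : ∀ i k, pd (Hs n) i (fun z => co (stereo (-σ) hσ')
        (pt (stereo σ hσ : OpenPartialHomeomorph (Hemi n) _) z) k) y =
        (if i = k then (‖y‖ ^ 2)⁻¹ else 0) - 2 * y i * y k / (‖y‖ ^ 2) ^ 2 := by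
      intro i k
      rw [hD.pd_congr i (g := fun z => ((‖z‖ ^ 2)⁻¹ • z) k) (fun z hz => by
        show (tr (stereo σ hσ) (stereo (-σ) hσ') z) k = ((‖z‖ ^ 2)⁻¹ • z) k
        rw [tr_stereo σ hσ hσ' ((mem_dom2_stereo σ hσ hσ').1 hz).1]) hy2, pd_inversion hD h0 hy2]
    have h2 : co (stereo (-σ) hσ') (pt (stereo σ hσ : OpenPartialHomeomorph (Hemi n) _) y) =
        (‖y‖ ^ 2)⁻¹ • y := tr_stereo σ hσ hσ' hyH
    have hr : ‖y‖ ^ 2 ≠ 0 := by
      have : ‖y‖ ≠ 0 := norm_ne_zero_iff.2 hy0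
      positivity
    have h3 : ‖(‖y‖ ^ 2)⁻¹ • y‖ ^ 2 = (‖y‖ ^ 2)⁻¹ := by
      rw [norm_smul, mul_pow, Real.norm_eq_abs, sq_abs]
      field_simp
    simp only [h1, h2, roundG_apply, h3]
    rw [sum_delta, sum_inv y hr i j]
    have hp : 0 < ‖y‖ ^ 2 := lt_of_le_of_ne (by positivity) (Ne.symm hr)
    by_cases h4 : i = j
    · simp only [h4, if_true, mul_one]
      field_simp
      ring
    · simp only [h4, if_false, mul_zero]

/-- The round metric of the hemisphere. -/
noncomputable def hg (n : ℕ) : Metric n (Hemi n) where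
  G := fun _ => roundG (n + 1)
  posDef := fun _ _ y _ => round_posDef y
  smooth := fun _ _ i j => (round_smooth i j).contDiffOn
  compat := round_compat

end Pool.Agent.CY
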