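import Pool.Agent.CY.S6.Iface
import Pool.Agent.CY.S6.HemiMet

/-!
Project CY, part S6: curvature of the round metric and of the hyperbolic metric.

PLAN.  `S6.Ric_conf_flat` with `φ = 2/(1+|y|²)`: `log φ = log 2 - log (1+|y|²)`, first derivatives
`-2 y_i/(1+|y|²)`, second derivatives `-2 δ_ij/(1+|y|²) + 4 y_i y_j/(1+|y|²)²` (`Dom.pd_log`, `pd_norm_sq`,
`Dom.pd_mul`, `Dom.pd_inv`, `pd_coord`; derivatives of derivatives via `Dom.pd_congr` on `U`); this gives
`Ric_ij = (m-1) (2/(1+|y|²))² δ_ij` and `scal = m (m-1)`, because the inverse matrix is `((1+|y|²)/2)² • 1`.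
`φ = 1/y_0` on `Ho n` (`Dom (Hs n) (Ho n)`: `dom_of_open_Hs`, or `Dom.inter_open`): `log φ = - log y_0`, first
derivatives `-δ_{i0}/y_0`, second ones `δ_{i0} δ_{j0}/y_0²`: `Ric_ij = -n δ_ij / y_0²` with `m = n+1`.
`meanCurv_round`: in `Gam (Hs n) (roundG (n+1)) 0 a.succ b.succ (bd z)` the inverse matrix is diagonal, so only `l = 0`
remains, and `pd (Hs n) 0` of `(2/(1+|y|²))²` vanishes at `y_0 = 0`, and `g_{a 0} = g_{b 0} = 0` identically.
-/

set_option autoImplicit false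

open scoped Manifold ContDiff
open MeasureTheory Set Filter Topology

namespace Pool.Agent.CY

private theorem diff_nsq {m : ℕ} {U : Set (V m)} : DifferentiableOn ℝ (fun z : V m => ‖z‖ ^ 2) U :=
  ((contDiff_norm_sq ℝ (n := 1)).differentiable (by norm_num)).differentiableOn

private theorem diff_coord {m : ℕ} {U : Set (V m)} (k : Fin m) :
    DifferentiableOn ℝ (fun z : V m => z k) U := by
  have : Differentiable ℝ (fun z : V m => z k) := by fun_prop
  exact this.differentiableOn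

private theorem qpos {m : ℕ} (z : V m) : 0 < 1 + ‖z‖ ^ 2 := by positivity

private theorem diff_q {m : ℕ} {U : Set (V m)} : DifferentiableOn ℝ (fun z : V m => 1 + ‖z‖ ^ 2) U :=
  (differentiableOn_const 1).add diff_nsq

private theorem pd_q {m : ℕ} {S U : Set (V m)} (hD : Dom S U) {y : V m} (hy : y ∈ U) (i : Fin m) :
    pd S i (fun z => 1 + ‖z‖ ^ 2) y = 2 * y i := by
  rw [hD.pd_add i (differentiableOn_const 1) diff_nsq hy, pd_const, pd_norm_sq hD hy, zero_add]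

private theorem pd_L {m : ℕ} {S U : Set (V m)} (hD : Dom S U) {y : V m} (hy : y ∈ U) (i : Fin m) :
    pd S i (fun z => Real.log (2 / (1 + ‖z‖ ^ 2))) y = -2 * (y i * (1 + ‖y‖ ^ 2)⁻¹) := by
  have h1 : ∀ z ∈ U, Real.log (2 / (1 + ‖z‖ ^ 2)) = Real.log 2 - Real.log (1 + ‖z‖ ^ 2) := by
    intro z _
    rw [Real.log_div (by norm_num) (qpos z).ne']
  have h2 : DifferentiableOn ℝ (fun z : V m => Real.log (1 + ‖z‖ ^ 2)) U :=
    diff_q.log fun z _ => (qpos z).ne'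
  rw [hD.pd_congr i h1 hy, hD.pd_sub i (differentiableOn_const _) h2 hy, pd_const,
    hD.pd_log i diff_q (fun z _ => qpos z) hy, pd_q hD hy]
  ring

private theorem pd2_L {m : ℕ} {S U : Set (V m)} (hD : Dom S U) {y : V m} (hy : y ∈ U) (i j : Fin m) :
    pd S i (pd S j (fun z => Real.log (2 / (1 + ‖z‖ ^ 2)))) y =
      -2 * ((if i = j then 1 else 0) * (1 + ‖y‖ ^ 2)⁻¹) + 4 * (y i * y j) * ((1 + ‖y‖ ^ 2)⁻¹) ^ 2 := by
  rw [hD.pd_congr i (fun z hz => pd_L hD hz j) hy]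
  have h1 : DifferentiableOn ℝ (fun z : V m => (1 + ‖z‖ ^ 2)⁻¹) U :=
    diff_q.inv fun z _ => (qpos z).ne'
  have hp : DifferentiableOn ℝ (fun z : V m => z j * (1 + ‖z‖ ^ 2)⁻¹) U := (diff_coord j).mul h1
  rw [hD.pd_const_mul i (-2) hp hy, hD.pd_mul i (diff_coord j) h1 hy,
    pd_coord hD hy, hD.pd_inv i diff_q (fun z _ => (qpos z).ne') hy, pd_q hD hy]
  have := (qpos y).ne'
  field_simp
  ring

theorem Ric_round {m : ℕ} {S U : Set (V m)} (hD : Dom S U) {y : V m} (hy : y ∈ U) (i j : Fin m) :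
    Ric S (roundG m) i j y = ((m : ℝ) - 1) * roundG m y i j := by
  have hφ : ContDiffOn ℝ 2 (fun z : V m => 2 / (1 + ‖z‖ ^ 2)) U := by
    refine ContDiff.contDiffOn ?_
    exact contDiff_const.div (contDiff_const.add (contDiff_norm_sq ℝ)) fun z => (qpos z).ne'
  have h0 : ∀ z ∈ U, 0 < 2 / (1 + ‖z‖ ^ 2) := fun z _ => div_pos two_pos (qpos z)
  have h := S6.Ric_conf_flat hD hφ h0 hy i j
  have hR : roundG m = fun z => (2 / (1 + ‖z‖ ^ 2)) ^ 2 • (1 : Matrix (Fin m) (Fin m) ℝ) := rfl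
  rw [hR, h]
  simp only [pd_L hD hy, pd2_L hD hy, Matrix.smul_apply, Matrix.one_apply, smul_eq_mul, if_true]
  have hs : ∑ k : Fin m, (-2 * (1 * (1 + ‖y‖ ^ 2)⁻¹) + 4 * (y k * y k) * ((1 + ‖y‖ ^ 2)⁻¹) ^ 2) =
      -2 * m * (1 + ‖y‖ ^ 2)⁻¹ + 4 * ‖y‖ ^ 2 * ((1 + ‖y‖ ^ 2)⁻¹) ^ 2 := by
    rw [Finset.sum_add_distrib, Finset.sum_const, Finset.card_univ, Fintype.card_fin, nsmul_eq_mul,
      ← Finset.sum_mul, ← Finset.mul_sum, EuclideanSpace.norm_sq_eq]
    simp only [Real.norm_eq_abs, sq_abs, ← sq]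
    ring
  have hs2 : ∑ k : Fin m, (-2 * (y k * (1 + ‖y‖ ^ 2)⁻¹)) ^ 2 =
      4 * ‖y‖ ^ 2 * ((1 + ‖y‖ ^ 2)⁻¹) ^ 2 := by
    have : ∀ k : Fin m, (-2 * (y k * (1 + ‖y‖ ^ 2)⁻¹)) ^ 2 = 4 * ((1 + ‖y‖ ^ 2)⁻¹) ^ 2 * y k ^ 2 :=
      fun k => by ring
    have hn : ‖y‖ ^ 2 = ∑ k, y k ^ 2 := by
      rw [EuclideanSpace.norm_sq_eq]
      simp only [Real.norm_eq_abs, sq_abs]
    simp only [this]
    rw [← Finset.mul_sum, ← hn]
    ring
  rw [hs, hs2]
  have hq := (qpos y).ne'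
  by_cases hij : i = j
  · subst hij
    simp only [if_true]
    field_simp
    ring
  · simp only [if_neg hij]
    ring

private theorem round_inv {m : ℕ} (y : V m) :
    (roundG m y)⁻¹ = ((2 / (1 + ‖y‖ ^ 2)) ^ 2)⁻¹ • (1 : Matrix (Fin m) (Fin m) ℝ) := by
  refine Matrix.inv_eq_right_inv ?_
  have h : (2 / (1 + ‖y‖ ^ 2)) ^ 2 ≠ 0 := (pow_pos (div_pos two_pos (qpos y)) 2).ne'
  rw [roundG, smul_mul_smul_comm, Matrix.one_mul, mul_inv_cancel₀ h, one_smul]

theorem scal_round {m : ℕ} {S U : Set (V m)} (hD : Dom S U) {y : V m} (hy : y ∈ U) :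
    scal S (roundG m) y = (m : ℝ) * ((m : ℝ) - 1) := by
  have h : (2 / (1 + ‖y‖ ^ 2)) ^ 2 ≠ 0 := (pow_pos (div_pos two_pos (qpos y)) 2).ne'
  unfold scal
  have h1 : ∀ i j : Fin m, (roundG m y)⁻¹ i j * Ric S (roundG m) i j y =
      if i = j then ((m : ℝ) - 1) else 0 := by
    intro i j
    rw [Ric_round hD hy, round_inv, roundG_apply, Matrix.smul_apply, Matrix.one_apply, smul_eq_mul]
    by_cases hij : i = j
    · simp only [if_pos hij]
      field_simp
    · simp only [if_neg hij]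
      ring
  simp only [h1, Finset.sum_ite_eq, Finset.mem_univ, if_true, Finset.sum_const, Finset.card_univ,
    Fintype.card_fin, nsmul_eq_mul]

variable {n : ℕ}

theorem dom_Ho : Dom (Hs n) (Ho n) := by
  refine dom_of_open_Hs isOpen_Ho ?_
  rw [inter_eq_left.2 Ho_subset_Hs]

/-- The hyperbolic metric is Einstein. -/
theorem Ric_hyp {y : V (n + 1)} (hy : 0 < y 0) (i j : Fin (n + 1)) :
    Ric (Hs n) (fun z => (((z 0) ^ 2)⁻¹ : ℝ) • (1 : Matrix (Fin (n + 1)) (Fin (n + 1)) ℝ)) i j y =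
      -(n : ℝ) * (((y 0) ^ 2)⁻¹ * (1 : Matrix (Fin (n + 1)) (Fin (n + 1)) ℝ) i j) := by
  have hyU : y ∈ Ho n := hy
  have hD : Dom (Hs n) (Ho n) := dom_Ho
  have hne : ∀ z ∈ Ho n, z 0 ≠ 0 := fun z hz => (show 0 < z 0 from hz).ne'
  have hφ : ContDiffOn ℝ 2 (fun z : V (n + 1) => (z 0)⁻¹) (Ho n) := by
    have h1 : ContDiffOn ℝ 2 (fun z : V (n + 1) => z 0) (Ho n) := by
      refine ContDiff.contDiffOn ?_
      fun_prop
    exact h1.inv hne
  have h0 : ∀ z ∈ Ho n, 0 < (z 0)⁻¹ := fun z hz => inv_pos.2 hz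
  have h := S6.Ric_conf_flat hD hφ h0 hyU i j
  have e1 : (fun z : V (n + 1) => (((z 0) ^ 2)⁻¹ : ℝ) • (1 : Matrix (Fin (n + 1)) (Fin (n + 1)) ℝ)) =
      fun z => ((z 0)⁻¹) ^ 2 • (1 : Matrix (Fin (n + 1)) (Fin (n + 1)) ℝ) := by
    funext z
    rw [inv_pow]
  have dinv : DifferentiableOn ℝ (fun z : V (n + 1) => (z 0)⁻¹) (Ho n) := (diff_coord 0).inv hne
  have p1 : ∀ k : Fin (n + 1), ∀ z ∈ Ho n, pd (Hs n) k (fun z => Real.log ((z 0)⁻¹)) z =
      -(if k = 0 then 1 else 0) * (z 0)⁻¹ := by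
    intro k z hz
    rw [hD.pd_log k dinv h0 hz, hD.pd_inv k (diff_coord 0) hne hz, pd_coord hD hz]
    have := hne z hz
    field_simp
  have p2 : ∀ k l : Fin (n + 1), pd (Hs n) k (pd (Hs n) l (fun z => Real.log ((z 0)⁻¹))) y =
      (if l = 0 then 1 else 0) * (if k = 0 then 1 else 0) * ((y 0)⁻¹) ^ 2 := by
    intro k l
    rw [hD.pd_congr k (fun z hz => p1 l z hz) hyU, hD.pd_const_mul k _ dinv hyU,
      hD.pd_inv k (diff_coord 0) hne hyU, pd_coord hD hyU]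
    have := hy.ne'
    field_simp
  rw [e1, h]
  simp only [p2, p1 _ y hyU]
  have s1 : ∑ k : Fin (n + 1), ((if k = 0 then (1 : ℝ) else 0) * (if k = 0 then 1 else 0) * ((y 0)⁻¹) ^ 2) =
      ((y 0)⁻¹) ^ 2 := by
    rw [Finset.sum_eq_single 0]
    · simp
    · intro b _ hb
      simp [hb]
    · simp
  have s2 : ∑ k : Fin (n + 1), (-(if k = 0 then (1 : ℝ) else 0) * (y 0)⁻¹) ^ 2 = ((y 0)⁻¹) ^ 2 := by
    rw [Finset.sum_eq_single 0]
    · simp
    · intro b _ hb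
      simp [hb]
    · simp
  rw [s1, s2, inv_pow]
  push_cast
  ring

theorem meanCurv_round (z : V n) : meanCurv (roundG (n + 1)) z = 0 := by
  have hD : Dom (Hs n) (Hs n) := dom_of_open_Hs (O := univ) isOpen_univ (by rw [univ_inter])
  have hy : bd z ∈ Hs n := bd_mem_Hs z
  have hG : ∀ a b : Fin n, Gam (Hs n) (roundG (n + 1)) 0 a.succ b.succ (bd z) = 0 := by
    intro a b
    unfold Gam
    have h1 : ∀ l : Fin (n + 1), (roundG (n + 1) (bd z))⁻¹ 0 l *
        (pd (Hs n) a.succ (fun z => roundG (n + 1) z b.succ l) (bd z) +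
          pd (Hs n) b.succ (fun z => roundG (n + 1) z a.succ l) (bd z) -
          pd (Hs n) l (fun z => roundG (n + 1) z a.succ b.succ) (bd z)) = 0 := by
      intro l
      by_cases hl : l = 0
      · subst hl
        have c1 : ∀ c : Fin n, (fun z : V (n + 1) => roundG (n + 1) z c.succ 0) = fun _ => 0 := by
          intro c
          funext y
          rw [roundG_apply, if_neg (Fin.succ_ne_zero c), mul_zero]
        have c2 : pd (Hs n) 0 (fun z => roundG (n + 1) z a.succ b.succ) (bd z) = 0 := by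
          have e : (fun z : V (n + 1) => roundG (n + 1) z a.succ b.succ) =
              fun z => (fun t : ℝ => (2 / (1 + t)) ^ 2 * (if a.succ = b.succ then 1 else 0)) (‖z‖ ^ 2) := by
            funext y
            rw [roundG_apply]
          have hdiff : DifferentiableAt ℝ
              (fun t : ℝ => (2 / (1 + t)) ^ 2 * (if a.succ = b.succ then 1 else 0)) (‖bd z‖ ^ 2) := by
            have hq : 1 + ‖bd z‖ ^ 2 ≠ 0 := (qpos _).ne'
            fun_prop (disch := exact hq)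
          rw [e, hD.pd_comp 0 diff_nsq hy hdiff, pd_norm_sq hD hy, bd_zero]
          ring
        rw [c1, c1, c2, pd_const, pd_const]
        ring
      · rw [round_inv, Matrix.smul_apply, Matrix.one_apply, if_neg (Ne.symm hl)]
        simp
    rw [Finset.sum_eq_zero fun l _ => h1 l, mul_zero]
  unfold meanCurv
  simp only [hG, mul_zero, Finset.sum_const_zero, zero_div]

end Pool.Agent.CY
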