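import Pool.Agent.CY.S6.HemiYB
import Pool.Agent.CY.S1.SobS

/-!
Project CY, part S6: the example (assembly by helper69).
-/

set_option autoImplicit false

open scoped Manifold ContDiff
open MeasureTheory Set Filter Topology

namespace Pool.Agent.CY

theorem example_exists (n : ℕ) (hn : 3 ≤ n) :
    ∃ (X : Type) (_ : TopologicalSpace X) (_ : ChartedSpace (EuclideanHalfSpace (n + 1)) X)
      (_ : IsManifold (𝓡∂ (n + 1)) ∞ X) (_ : CompactSpace X) (_ : T2Space X) (_ : ConnectedSpace X)
      (_ : MeasurableSpace X) (_ : BorelSpace X) (g : Metric n X) (ρ : X → ℝ),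
      IsCCE g ρ ∧ Yn n ≤ YB g ∧ Y1 g ≤ An n :=
  ⟨Hemi n, inferInstance, inferInstance, inferInstance, inferInstance, inferInstance, inferInstance,
    inferInstance, inferInstance, hg n, hrho n, isCCE_hemi,
    YB_hemi hn (fun u hu hc => sobolev_sharp n hn u hu hc), Y1_hemi hn⟩

end Pool.Agent.CY
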