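import Pool.Agent.CY.S5.Doms

/-!
Project CY, part S6: the hemisphere `{(v, s) ∈ ℝ^{n+1} × ℝ : |v|² + s² = 1, v₀ ≥ 0}` as a manifold with
boundary, with the two stereographic charts from the boundary points `(0, 1)` and `(0, -1)`.
-/

set_option autoImplicit false

open scoped Manifold ContDiff
open MeasureTheory Set Filter Topology

namespace Pool.Agent.CY

/-- The closed hemisphere. -/
def Hemi (n : ℕ) : Type := {p : V (n + 1) × ℝ // ‖p.1‖ ^ 2 + p.2 ^ 2 = 1 ∧ 0 ≤ p.1 0}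

variable {n : ℕ}

instance : TopologicalSpace (Hemi n) :=
  inferInstanceAs (TopologicalSpace {p : V (n + 1) × ℝ // ‖p.1‖ ^ 2 + p.2 ^ 2 = 1 ∧ 0 ≤ p.1 0})
instance : T2Space (Hemi n) :=
  inferInstanceAs (T2Space {p : V (n + 1) × ℝ // ‖p.1‖ ^ 2 + p.2 ^ 2 = 1 ∧ 0 ≤ p.1 0})
instance : MeasurableSpace (Hemi n) := borel _
instance : BorelSpace (Hemi n) := ⟨rfl⟩

/-- The `ℝ^{n+1}` component. -/
def Hemi.v (p : Hemi n) : V (n + 1) := p.1.1

/-- The height. -/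
def Hemi.s (p : Hemi n) : ℝ := p.1.2

theorem Hemi.eq (p : Hemi n) : ‖p.v‖ ^ 2 + p.s ^ 2 = 1 := p.2.1

theorem Hemi.nonneg (p : Hemi n) : 0 ≤ p.v 0 := p.2.2

theorem Hemi.ext {p q : Hemi n} (h1 : p.v = q.v) (h2 : p.s = q.s) : p = q :=
  Subtype.ext (Prod.ext h1 h2)

theorem continuous_v : Continuous (Hemi.v : Hemi n → V (n + 1)) :=
  continuous_fst.comp continuous_subtype_val

theorem continuous_s : Continuous (Hemi.s : Hemi n → ℝ) :=
  continuous_snd.comp continuous_subtype_val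

theorem Hemi.abs_s (p : Hemi n) {σ : ℝ} (hσ : σ ^ 2 = 1) : σ * p.s ≤ 1 := by
  have h1 := p.eq
  nlinarith [sq_nonneg (σ - p.s), sq_nonneg ‖p.v‖]

/-- The inverse of the stereographic projection from `(0, σ)`. -/
noncomputable def invst (σ : ℝ) (hσ : σ ^ 2 = 1) (y : EuclideanHalfSpace (n + 1)) : Hemi n :=
  ⟨((2 / (1 + ‖y.1‖ ^ 2)) • y.1, σ * (‖y.1‖ ^ 2 - 1) / (1 + ‖y.1‖ ^ 2)), by
    have h : 0 < 1 + ‖y.1‖ ^ 2 := by positivity
    simp only [norm_smul, Real.norm_eq_abs, mul_pow, sq_abs]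
    have h2 : (σ * (‖y.1‖ ^ 2 - 1) / (1 + ‖y.1‖ ^ 2)) ^ 2
        = (‖y.1‖ ^ 2 - 1) ^ 2 / (1 + ‖y.1‖ ^ 2) ^ 2 := by
      rw [div_pow, mul_pow, hσ, one_mul]
    rw [h2, div_pow]
    field_simp
    ring, by
    have h : 0 < 1 + ‖y.1‖ ^ 2 := by positivity
    have h1 : 0 ≤ y.1 0 := y.2
    simp only [PiLp.smul_apply, smul_eq_mul]
    positivity⟩

/-- The stereographic projection from `(0, σ)`, `σ = ± 1`. -/
noncomputable def stereo (σ : ℝ) (hσ : σ ^ 2 = 1) :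
    OpenPartialHomeomorph (Hemi n) (EuclideanHalfSpace (n + 1)) where
  toFun p := ⟨(1 - σ * p.s)⁻¹ • p.v, by
    have h1 := p.abs_s hσ
    have h2 := p.nonneg
    simp only [PiLp.smul_apply, smul_eq_mul]
    exact mul_nonneg (inv_nonneg.2 (by linarith)) h2⟩
  invFun := invst σ hσ
  source := {p | σ * p.s ≠ 1}
  target := univ
  map_source' := fun _ _ => mem_univ _
  map_target' := by
    intro y _
    have h : 0 < 1 + ‖y.1‖ ^ 2 := by positivity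
    show σ * (σ * (‖y.1‖ ^ 2 - 1) / (1 + ‖y.1‖ ^ 2)) ≠ 1
    have h2 : σ * (σ * (‖y.1‖ ^ 2 - 1) / (1 + ‖y.1‖ ^ 2)) = (‖y.1‖ ^ 2 - 1) / (1 + ‖y.1‖ ^ 2) := by
      rw [← mul_div_assoc, ← mul_assoc, ← sq, hσ, one_mul]
    rw [h2, Ne, div_eq_one_iff_eq h.ne']
    intro h3
    linarith
  left_inv' := by
    intro p hp
    have hp' : σ * p.s ≠ 1 := hp
    have h1 : 1 - σ * p.s ≠ 0 := sub_ne_zero.2 (Ne.symm hp')
    have h2 := p.eq
    have h3 : ‖(1 - σ * p.s)⁻¹ • p.v‖ ^ 2 = (1 + σ * p.s) / (1 - σ * p.s) := by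
      rw [norm_smul, mul_pow, Real.norm_eq_abs, sq_abs]
      have h4 : ‖p.v‖ ^ 2 = (1 - σ * p.s) * (1 + σ * p.s) := by
        have : ‖p.v‖ ^ 2 = 1 - p.s ^ 2 := by linarith
        rw [this]
        linear_combination p.s ^ 2 * hσ
      rw [h4]
      field_simp
    have h5 : 1 + (1 + σ * p.s) / (1 - σ * p.s) = 2 / (1 - σ * p.s) := by
      field_simp
      ring
    apply Hemi.ext
    · show (2 / (1 + ‖(1 - σ * p.s)⁻¹ • p.v‖ ^ 2)) • ((1 - σ * p.s)⁻¹ • p.v) = p.v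
      rw [h3, h5, smul_smul]
      have h6 : 2 / (2 / (1 - σ * p.s)) * (1 - σ * p.s)⁻¹ = 1 := by field_simp
      rw [h6, one_smul]
    · show σ * (‖(1 - σ * p.s)⁻¹ • p.v‖ ^ 2 - 1) / (1 + ‖(1 - σ * p.s)⁻¹ • p.v‖ ^ 2) = p.s
      rw [h3, h5]
      have h6 : (1 + σ * p.s) / (1 - σ * p.s) - 1 = 2 * (σ * p.s) / (1 - σ * p.s) := by
        field_simp
        ring
      rw [h6]
      have h7 : σ * (2 * (σ * p.s) / (1 - σ * p.s)) / (2 / (1 - σ * p.s)) = σ ^ 2 * p.s := by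
        field_simp
      rw [h7, hσ, one_mul]
  right_inv' := by
    intro y _
    have h : 0 < 1 + ‖y.1‖ ^ 2 := by positivity
    apply Subtype.ext
    show (1 - σ * (σ * (‖y.1‖ ^ 2 - 1) / (1 + ‖y.1‖ ^ 2)))⁻¹ • ((2 / (1 + ‖y.1‖ ^ 2)) • y.1) = y.1
    have h2 : 1 - σ * (σ * (‖y.1‖ ^ 2 - 1) / (1 + ‖y.1‖ ^ 2)) = 2 / (1 + ‖y.1‖ ^ 2) := by
      have h3 : σ * (σ * (‖y.1‖ ^ 2 - 1) / (1 + ‖y.1‖ ^ 2)) = (‖y.1‖ ^ 2 - 1) / (1 + ‖y.1‖ ^ 2) := by
        rw [← mul_div_assoc, ← mul_assoc, ← sq, hσ, one_mul]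
      rw [h3]
      field_simp
      ring
    rw [h2, smul_smul]
    have h6 : (2 / (1 + ‖y.1‖ ^ 2))⁻¹ * (2 / (1 + ‖y.1‖ ^ 2)) = 1 := by field_simp
    rw [h6, one_smul]
  open_source := isOpen_ne_fun (continuous_const.mul continuous_s) continuous_const
  open_target := isOpen_univ
  continuousOn_toFun := by
    apply continuousOn_iff_continuous_domRestrict.2
    apply Continuous.subtype_mk
    have h1 : Continuous fun x : {p : Hemi n | σ * p.s ≠ 1} => (1 - σ * (x : Hemi n).s)⁻¹ := by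
      apply Continuous.inv₀
      · exact continuous_const.sub (continuous_const.mul (continuous_s.comp continuous_subtype_val))
      · intro p
        exact sub_ne_zero.2 (Ne.symm p.2)
    exact h1.fun_smul (continuous_v.comp continuous_subtype_val)
  continuousOn_invFun := by
    apply Continuous.continuousOn
    apply Continuous.subtype_mk
    have h1 : Continuous (fun y : EuclideanHalfSpace (n + 1) => ‖y.1‖ ^ 2) :=
      (continuous_norm.comp continuous_subtype_val).pow 2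
    have h2 : Continuous (fun y : EuclideanHalfSpace (n + 1) => 1 + ‖y.1‖ ^ 2) :=
      continuous_const.add h1
    have h3 : ∀ y : EuclideanHalfSpace (n + 1), 1 + ‖y.1‖ ^ 2 ≠ 0 := fun y => by positivity
    refine Continuous.prodMk ?_ ?_
    · exact (continuous_const.div h2 h3).smul continuous_subtype_val
    · exact (continuous_const.mul (h1.sub continuous_const)).div h2 h3

theorem one_sq' : (1 : ℝ) ^ 2 = 1 := by norm_num

theorem neg_one_sq' : (-1 : ℝ) ^ 2 = 1 := by norm_num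

open Classical in
noncomputable instance : ChartedSpace (EuclideanHalfSpace (n + 1)) (Hemi n) where
  atlas := {stereo 1 one_sq', stereo (-1) neg_one_sq'}
  chartAt p := if 1 * p.s ≠ 1 then stereo 1 one_sq' else stereo (-1) neg_one_sq'
  mem_chart_source p := by
    by_cases h : 1 * p.s ≠ 1
    · rw [if_pos h]
      exact h
    · rw [if_neg h]
      push Not at h
      show (-1) * p.s ≠ 1
      rw [one_mul] at h
      rw [h]
      norm_num
  chart_mem_atlas p := by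
    by_cases h : 1 * p.s ≠ 1
    · rw [if_pos h]
      simp
    · rw [if_neg h]
      simp

/-- Every chart of the atlas is a stereographic projection. -/
theorem mem_atlas_hemi {e : OpenPartialHomeomorph (Hemi n) (EuclideanHalfSpace (n + 1))}
    (he : e ∈ atlas (EuclideanHalfSpace (n + 1)) (Hemi n)) :
    ∃ (σ : ℝ) (hσ : σ ^ 2 = 1), e = stereo σ hσ := by
  rcases he with rfl | rfl
  · exact ⟨1, one_sq', rfl⟩
  · exact ⟨-1, neg_one_sq', rfl⟩

theorem stereo_mem (σ : ℝ) (hσ : σ ^ 2 = 1) :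
    (stereo σ hσ : OpenPartialHomeomorph (Hemi n) _) ∈ atlas (EuclideanHalfSpace (n + 1)) (Hemi n) := by
  have h : σ = 1 ∨ σ = -1 := by
    have h1 : (σ - 1) * (σ + 1) = 0 := by linear_combination hσ
    rcases mul_eq_zero.1 h1 with h2 | h2
    · left; linarith
    · right; linarith
  rcases h with rfl | rfl
  · exact Or.inl rfl
  · exact Or.inr rfl

theorem chartAt_hemi (p : Hemi n) (h : p.s ≠ 1) :
    chartAt (EuclideanHalfSpace (n + 1)) p = stereo 1 one_sq' := by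
  show (if 1 * p.s ≠ 1 then stereo 1 one_sq' else stereo (-1) neg_one_sq') = _
  rw [if_pos (by rwa [one_mul])]

theorem source_stereo (σ : ℝ) (hσ : σ ^ 2 = 1) :
    (stereo σ hσ : OpenPartialHomeomorph (Hemi n) _).source = {p | σ * p.s ≠ 1} := rfl

theorem dom_stereo (σ : ℝ) (hσ : σ ^ 2 = 1) :
    dom (stereo σ hσ : OpenPartialHomeomorph (Hemi n) (EuclideanHalfSpace (n + 1))) = Hs n := by
  ext y
  constructor
  · rintro ⟨z, _, rfl⟩
    exact z.2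
  · intro hy
    exact ⟨⟨y, hy⟩, mem_univ _, rfl⟩

theorem co_stereo (σ : ℝ) (hσ : σ ^ 2 = 1) (p : Hemi n) :
    co (stereo σ hσ) p = (1 - σ * p.s)⁻¹ • p.v := rfl

theorem pt_stereo (σ : ℝ) (hσ : σ ^ 2 = 1) {y : V (n + 1)} (hy : y ∈ Hs n) :
    pt (stereo σ hσ : OpenPartialHomeomorph (Hemi n) _) y = invst σ hσ ⟨y, hy⟩ := by
  rw [pt, model_symm_apply hy]
  rfl

theorem v_pt_stereo (σ : ℝ) (hσ : σ ^ 2 = 1) {y : V (n + 1)} (hy : y ∈ Hs n) :
    (pt (stereo σ hσ : OpenPartialHomeomorph (Hemi n) _) y).v = (2 / (1 + ‖y‖ ^ 2)) • y := by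
  rw [pt_stereo σ hσ hy]
  rfl

theorem s_pt_stereo (σ : ℝ) (hσ : σ ^ 2 = 1) {y : V (n + 1)} (hy : y ∈ Hs n) :
    (pt (stereo σ hσ : OpenPartialHomeomorph (Hemi n) _) y).s
      = σ * (‖y‖ ^ 2 - 1) / (1 + ‖y‖ ^ 2) := by
  rw [pt_stereo σ hσ hy]
  rfl

/-- The transition map between the two charts is the inversion. -/
theorem tr_stereo (σ : ℝ) (hσ : σ ^ 2 = 1) (hσ' : (-σ) ^ 2 = 1) {y : V (n + 1)} (hy : y ∈ Hs n) :
    tr (stereo σ hσ : OpenPartialHomeomorph (Hemi n) _) (stereo (-σ) hσ') y = (‖y‖ ^ 2)⁻¹ • y := by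
  rw [tr, co_stereo, v_pt_stereo σ hσ hy, s_pt_stereo σ hσ hy, smul_smul]
  have h : 0 < 1 + ‖y‖ ^ 2 := by positivity
  have h3 : 1 - -σ * (σ * (‖y‖ ^ 2 - 1) / (1 + ‖y‖ ^ 2)) = 2 * ‖y‖ ^ 2 / (1 + ‖y‖ ^ 2) := by
    have h4 : -σ * (σ * (‖y‖ ^ 2 - 1) / (1 + ‖y‖ ^ 2)) = -((‖y‖ ^ 2 - 1) / (1 + ‖y‖ ^ 2)) := by
      have : -σ * (σ * (‖y‖ ^ 2 - 1) / (1 + ‖y‖ ^ 2)) = -(σ ^ 2 * (‖y‖ ^ 2 - 1) / (1 + ‖y‖ ^ 2)) := by ring
      rw [this, hσ, one_mul]
    rw [h4]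
    field_simp
    ring
  rw [h3]
  congr 1
  by_cases h0 : ‖y‖ ^ 2 = 0
  · rw [h0]
    simp
  · field_simp

/-- The point `(0, σ)` is not in the domain of the chart; all the others are. -/
theorem mem_dom2_stereo (σ : ℝ) (hσ : σ ^ 2 = 1) (hσ' : (-σ) ^ 2 = 1) {y : V (n + 1)} :
    y ∈ dom2 (stereo σ hσ : OpenPartialHomeomorph (Hemi n) _) (stereo (-σ) hσ') ↔ y ∈ Hs n ∧ y ≠ 0 := by
  constructor
  · rintro ⟨h1, h2⟩
    rw [dom_stereo] at h1
    refine ⟨h1, ?_⟩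
    rintro rfl
    apply h2
    rw [s_pt_stereo σ hσ h1]
    simp only [norm_zero]
    have : -σ * (σ * (0 ^ 2 - 1) / (1 + 0 ^ 2)) = σ ^ 2 := by ring
    rw [this, hσ]
  · rintro ⟨h1, h2⟩
    refine ⟨by rw [dom_stereo]; exact h1, ?_⟩
    show -σ * _ ≠ 1
    rw [s_pt_stereo σ hσ h1]
    have h : 0 < 1 + ‖y‖ ^ 2 := by positivity
    have h4 : -σ * (σ * (‖y‖ ^ 2 - 1) / (1 + ‖y‖ ^ 2)) = -((‖y‖ ^ 2 - 1) / (1 + ‖y‖ ^ 2)) := by
      have : -σ * (σ * (‖y‖ ^ 2 - 1) / (1 + ‖y‖ ^ 2)) = -(σ ^ 2 * (‖y‖ ^ 2 - 1) / (1 + ‖y‖ ^ 2)) := by ring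
      rw [this, hσ, one_mul]
    rw [h4]
    intro h5
    have h6 : ‖y‖ ^ 2 = 0 := by
      field_simp at h5
      linarith
    exact h2 (by simpa using h6)

end Pool.Agent.CY
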