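import Pool.Agent.CY.S6.Curv
import Pool.Agent.CY.S3.Base

/-!
Project CY, part S6: the hemisphere with `ρ = v_0` is the conformal compactification of hyperbolic space.

PLAN.  In every chart `hrho (pt e y) = 2 y_0/(1+|y|²)` for `y ∈ Hs n` (`v_pt_stereo`).  `smooth`: `contMDiff_of_loc`
(`dom e = Hs n`).  `zero_iff`: `mem_boundary_iff` in the chart at `p` and `co_stereo`: `co e p 0 = (1 - σ s)⁻¹ v_0`
with `1 - σ s ≠ 0` on the source.  `deriv_ne`: `pd (Hs n) 0 (2 z_0/(1+|z|²)) = 2/(1+|y|²)` at `y_0 = 0`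
(`Dom.pd_congr`, `Dom.pd_mul`, `Dom.pd_inv`, `pd_coord`, `pd_norm_sq`, `Dom (Hs n) (Hs n)`).
`einstein`: on `Ho n` (domain `dom_Ho`) the metric `(ρ²)⁻¹ • g` is `((z 0)²)⁻¹ • 1`; `S6.Ric_congr` and `Ric_hyp`.
-/

set_option autoImplicit false

open scoped Manifold ContDiff
open MeasureTheory Set Filter Topology

namespace Pool.Agent.CY

/-- The defining function of the boundary. -/
def hrho (n : ℕ) (p : Hemi n) : ℝ := p.v 0

variable {n : ℕ}

theorem hrho_pt {σ : ℝ} (hσ : σ ^ 2 = 1) {y : V (n + 1)} (hy : y ∈ Hs n) :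
    hrho n (pt (stereo σ hσ) y) = 2 / (1 + ‖y‖ ^ 2) * y 0 := by
  rw [hrho, v_pt_stereo σ hσ hy]
  simp

theorem boundary_hemi (p : Hemi n) : p ∈ (𝓡∂ (n + 1)).boundary (Hemi n) ↔ p.v 0 = 0 := by
  obtain ⟨σ, hσ, he⟩ := mem_atlas_hemi (chart_mem_atlas (EuclideanHalfSpace (n + 1)) p)
  have hsrc : p ∈ (stereo σ hσ : OpenPartialHomeomorph (Hemi n) (EuclideanHalfSpace (n + 1))).source := by
    rw [← he]
    exact mem_chart_source _ p
  rw [mem_boundary_iff (stereo_mem σ hσ) hsrc, co_stereo]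
  have h1 : 1 - σ * p.s ≠ 0 := sub_ne_zero.2 (Ne.symm hsrc)
  rw [PiLp.smul_apply, smul_eq_mul, mul_eq_zero, inv_eq_zero]
  exact ⟨fun h => h.resolve_left h1, Or.inr⟩

private theorem dom_HsHs : Dom (Hs n) (Hs n) := dom_of_open_Hs isOpen_univ (univ_inter _).symm

private theorem hrho_loc {e : OpenPartialHomeomorph (Hemi n) (EuclideanHalfSpace (n + 1))}
    (he : e ∈ atlas (EuclideanHalfSpace (n + 1)) (Hemi n)) {z : V (n + 1)} (hz : z ∈ Hs n) :
    hrho n (pt e z) = 2 / (1 + ‖z‖ ^ 2) * z 0 := by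
  obtain ⟨σ, hσ, rfl⟩ := mem_atlas_hemi he
  exact hrho_pt hσ hz

private theorem dom_hemi {e : OpenPartialHomeomorph (Hemi n) (EuclideanHalfSpace (n + 1))}
    (he : e ∈ atlas (EuclideanHalfSpace (n + 1)) (Hemi n)) : dom e = Hs n := by
  obtain ⟨σ, hσ, rfl⟩ := mem_atlas_hemi he
  exact dom_stereo σ hσ

private theorem smooth_fac : ContDiff ℝ ∞ (fun z : V (n + 1) => 2 / (1 + ‖z‖ ^ 2)) := by
  refine contDiff_const.div (contDiff_const.add (contDiff_norm_sq ℝ)) fun z => ?_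
  positivity

private theorem smooth_coord (i : Fin (n + 1)) : ContDiff ℝ ∞ (fun z : V (n + 1) => z i) := by
  fun_prop

theorem isCCE_hemi : IsCCE (hg n) (hrho n) where
  smooth := by
    refine contMDiff_of_loc fun e he => ?_
    rw [dom_hemi he]
    refine ContDiffOn.congr (f := fun z : V (n + 1) => 2 / (1 + ‖z‖ ^ 2) * z 0) ?_ fun z hz => hrho_loc he hz
    exact (smooth_fac.mul (smooth_coord 0)).contDiffOn
  nonneg := fun p => p.nonneg
  zero_iff := fun p => (boundary_hemi p).symm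
  deriv_ne := by
    intro e he y hy hy0
    rw [dom_hemi he] at hy
    rw [dom_HsHs.pd_congr 0 (g := fun z => 2 / (1 + ‖z‖ ^ 2) * z 0) (fun z hz => hrho_loc he hz) hy]
    have hd1 : DifferentiableOn ℝ (fun z : V (n + 1) => 2 / (1 + ‖z‖ ^ 2)) (Hs n) :=
      (smooth_fac.differentiable (by simp)).differentiableOn
    have hd2 : DifferentiableOn ℝ (fun z : V (n + 1) => z 0) (Hs n) :=
      ((smooth_coord 0).differentiable (by simp)).differentiableOn
    rw [dom_HsHs.pd_mul 0 hd1 hd2 hy, pd_coord dom_HsHs hy, hy0]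
    have h1 : (0 : ℝ) < 2 / (1 + ‖y‖ ^ 2) := by positivity
    simp only [if_true, mul_one, mul_zero, zero_add]
    exact h1.ne'
  einstein := by
    intro e he y hy hy0 i j
    have hyH : y ∈ Hs n := dom_subset e hy
    have hyo : y ∈ Ho n := hy0
    have key : ∀ z ∈ Ho n, ((hrho n (pt e z)) ^ 2)⁻¹ • (hg n).G e z =
        (((z 0) ^ 2)⁻¹ : ℝ) • (1 : Matrix (Fin (n + 1)) (Fin (n + 1)) ℝ) := by
      intro z hz
      have hz0 : z 0 ≠ 0 := ne_of_gt hz
      have h1 : (1 + ‖z‖ ^ 2) ≠ 0 := by positivity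
      rw [hrho_loc he (Ho_subset_Hs hz)]
      show ((2 / (1 + ‖z‖ ^ 2) * z 0) ^ 2)⁻¹ • ((2 / (1 + ‖z‖ ^ 2)) ^ 2 • (1 : Matrix (Fin (n + 1)) (Fin (n + 1)) ℝ)) = _
      rw [smul_smul]
      congr 1
      field_simp
    rw [S6.Ric_congr dom_Ho key hyo, Ric_hyp hy0]
    have h2 := congrFun (congrFun (key y hyo) i) j
    rw [Matrix.smul_apply, Matrix.smul_apply, smul_eq_mul, smul_eq_mul] at h2
    rw [h2]

end Pool.Agent.CY
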