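import Pool.Agent.CY.S6.Hemi

/-!
Project CY, part S6: the hemisphere is a smooth manifold with boundary; derivative of the inversion.

PLAN.  `isManifold_of_contDiffOn (𝓡∂ (n+1)) ∞ (Hemi n)`: for `e, e'` in the atlas (`mem_atlas_hemi`) with signs
`σ, σ'` (`σ' = σ` or `σ' = -σ`, from `σ² = σ'² = 1`) the map `I ∘ (e.symm ≫ₕ e') ∘ I.symm` is, on the half space,
the identity (`e.right_inv`) or the inversion (`tr_stereo`, `mem_dom2_stereo`); use `model_symm_apply`,
`ContDiffOn.congr`.  `contDiffOn_inversion`: `ContDiff.inv`/`contDiff_norm_sq`.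
`pd_inversion`: `Dom.pd_mul`, `Dom.pd_inv` for the function `‖z‖² = ∑ z_l²` (`EuclideanSpace.norm_sq_eq`), or compute
the `HasFDerivAt` of `z ↦ (‖z‖²)⁻¹ * z k` and use `HasFDerivAt.hasFDerivWithinAt.fderivWithin`.
-/

set_option autoImplicit false

open scoped Manifold ContDiff
open MeasureTheory Set Filter Topology

namespace Pool.Agent.CY

theorem contDiffOn_inversion (m : ℕ) :
    ContDiffOn ℝ ∞ (fun y : V m => (‖y‖ ^ 2)⁻¹ • y) {y | y ≠ 0} := by
  have h1 : ContDiff ℝ ∞ (fun y : V m => ‖y‖ ^ 2) := contDiff_norm_sq ℝ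
  exact (h1.contDiffOn.inv fun y hy => pow_ne_zero 2 (norm_ne_zero_iff.2 hy)).smul contDiffOn_id

/-- Partial derivatives of a coordinate. -/
theorem pd_coord {m : ℕ} {S U : Set (V m)} (hD : Dom S U) {y : V m} (hy : y ∈ U) (i k : Fin m) :
    pd S i (fun z => z k) y = if i = k then 1 else 0 := by
  have h1 : fderivWithin ℝ (fun z : V m => z k) S y = (EuclideanSpace.proj k : V m →L[ℝ] ℝ) :=
    (EuclideanSpace.proj k : V m →L[ℝ] ℝ).hasFDerivWithinAt.fderivWithin (hD.uniqAt hy)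
  rw [pd, h1]
  show (EuclideanSpace.single i (1 : ℝ) : V m) k = _
  rw [PiLp.single_apply]
  by_cases h : i = k
  · rw [if_pos h, if_pos h.symm]
  · rw [if_neg h, if_neg (Ne.symm h)]

/-- Partial derivatives of `‖z‖²`. -/
theorem pd_norm_sq {m : ℕ} {S U : Set (V m)} (hD : Dom S U) {y : V m} (hy : y ∈ U) (i : Fin m) :
    pd S i (fun z => ‖z‖ ^ 2) y = 2 * y i := by
  have hd : ∀ l : Fin m, DifferentiableOn ℝ (fun z : V m => z l) U := fun l =>
    (EuclideanSpace.proj l : V m →L[ℝ] ℝ).differentiable.differentiableOn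
  have h1 : pd S i (fun z : V m => ‖z‖ ^ 2) y = pd S i (fun z => ∑ l, z l * z l) y := by
    refine hD.pd_congr i (fun z _ => ?_) hy
    rw [EuclideanSpace.real_norm_sq_eq]
    exact Finset.sum_congr rfl fun l _ => sq _
  rw [h1, hD.pd_sum i Finset.univ (f := fun l z => z l * z l) (fun l _ => (hd l).mul (hd l)) hy]
  have h2 : ∀ l, pd S i (fun z : V m => z l * z l) y = if i = l then 2 * y l else 0 := by
    intro l
    rw [hD.pd_mul i (hd l) (hd l) hy, pd_coord hD hy]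
    split_ifs
    · ring
    · ring
  simp only [h2]
  simp

theorem pd_inversion {m : ℕ} {S U : Set (V m)} (hD : Dom S U) (h0 : ∀ y ∈ U, y ≠ 0) {y : V m}
    (hy : y ∈ U) (i k : Fin m) :
    pd S i (fun z => ((‖z‖ ^ 2)⁻¹ • z) k) y
      = (if i = k then (‖y‖ ^ 2)⁻¹ else 0) - 2 * y i * y k / (‖y‖ ^ 2) ^ 2 := by
  have hd : ∀ l : Fin m, DifferentiableOn ℝ (fun z : V m => z l) U := fun l =>
    (EuclideanSpace.proj l : V m →L[ℝ] ℝ).differentiable.differentiableOn
  have hn : DifferentiableOn ℝ (fun z : V m => ‖z‖ ^ 2) U :=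
    ((contDiff_norm_sq ℝ (n := 1)).differentiable (by simp)).differentiableOn
  have hne : ∀ z ∈ U, ‖z‖ ^ 2 ≠ 0 := fun z hz => pow_ne_zero 2 (norm_ne_zero_iff.2 (h0 z hz))
  have h1 : pd S i (fun z : V m => ((‖z‖ ^ 2)⁻¹ • z) k) y = pd S i (fun z => (‖z‖ ^ 2)⁻¹ * z k) y := rfl
  rw [h1, hD.pd_mul i (f := fun z : V m => (‖z‖ ^ 2)⁻¹) (g := fun z : V m => z k) (hn.inv hne) (hd k) hy,
    hD.pd_inv i hn hne hy, pd_norm_sq hD hy, pd_coord hD hy]
  split_ifs
  · ring
  · ring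

variable {n : ℕ}

instance : IsManifold (𝓡∂ (n + 1)) ∞ (Hemi n) := by
  refine isManifold_of_contDiffOn (𝓡∂ (n + 1)) ∞ (Hemi n) ?_
  intro e e' he he'
  have key : ContDiffOn ℝ ∞ (tr e e') (dom2 e e') := by
    obtain ⟨σ, hσ, rfl⟩ := mem_atlas_hemi he
    obtain ⟨σ', hσ', rfl⟩ := mem_atlas_hemi he'
    have h : σ' = σ ∨ σ' = -σ := by
      have h1 : (σ' - σ) * (σ' + σ) = 0 := by linear_combination hσ' - hσ
      rcases mul_eq_zero.1 h1 with h2 | h2
      · left; linarith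
      · right; linarith
    rcases h with rfl | rfl
    · refine contDiffOn_id.congr fun y hy => ?_
      exact co_pt _ hy.1
    · have h1 : dom2 (stereo σ hσ : OpenPartialHomeomorph (Hemi n) _) (stereo (-σ) hσ') ⊆ {y | y ≠ 0} :=
        fun y hy => ((mem_dom2_stereo σ hσ hσ').1 hy).2
      refine ((contDiffOn_inversion (n + 1)).mono h1).congr fun y hy => ?_
      exact tr_stereo σ hσ hσ' ((mem_dom2_stereo σ hσ hσ').1 hy).1
  have hmem : ∀ y ∈ (𝓡∂ (n + 1)).symm ⁻¹' (e.symm ≫ₕ e').source ∩ range (𝓡∂ (n + 1)), y ∈ dom2 e e' := by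
    rintro y ⟨h1, h2⟩
    rw [← Hs_eq_range] at h2
    rw [mem_preimage, OpenPartialHomeomorph.trans_source] at h1
    obtain ⟨h3, h4⟩ := h1
    refine ⟨?_, h4⟩
    rw [model_symm_apply h2] at h3
    exact (mem_dom_iff e h2).2 h3
  exact (key.mono hmem).congr fun y hy => rfl

end Pool.Agent.CY
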