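import Pool.Agent.CY.S6.Hemi

/-!
Project CY, part S6: the hemisphere is compact and connected.

PLAN.  Compact: the subset `{p | ‖p.1‖² + p.2² = 1 ∧ 0 ≤ p.1 0}` of the proper space `V (n+1) × ℝ` is closed
and bounded (`Metric.isCompact_of_isClosed_isBounded`, `isCompact_iff_compactSpace`): `‖p.1‖ ≤ 1`, `|p.2| ≤ 1`.
Connected: `univ` is the union of the two preconnected sets `(stereo σ hσ).source` for `σ = 1, -1` (images of the
convex half space under the continuous maps `invst σ hσ`, or `(stereo σ hσ).symm`, target `univ`;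
`EuclideanHalfSpace (n+1)` is a convex subset of `V (n+1)`, so preconnected), which meet in any point with `s = 0`
(for instance `(e_0, 0)`).  `σ * p.s = 1` and `-σ * p.s = 1` cannot both hold.
-/

set_option autoImplicit false

open scoped Manifold ContDiff
open MeasureTheory Set Filter Topology

namespace Pool.Agent.CY

variable {n : ℕ}

instance : CompactSpace (Hemi n) := by
  have h : IsCompact {p : V (n + 1) × ℝ | ‖p.1‖ ^ 2 + p.2 ^ 2 = 1 ∧ 0 ≤ p.1 0} := by
    apply Metric.isCompact_of_isClosed_isBounded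
    · apply IsClosed.inter
      · exact isClosed_eq (((continuous_norm.comp continuous_fst).pow 2).add
          (continuous_snd.pow 2)) continuous_const
      · exact isClosed_le continuous_const
          ((EuclideanSpace.proj (𝕜 := ℝ) (0 : Fin (n + 1))).continuous.comp continuous_fst)
    · apply (Metric.isBounded_closedBall (x := (0 : V (n + 1) × ℝ)) (r := 1)).subset
      rintro ⟨v, s⟩ ⟨h1, _⟩
      simp only at h1
      rw [mem_closedBall_zero_iff, Prod.norm_mk, max_le_iff]
      have h2 := sq_nonneg ‖v‖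
      have h3 := sq_nonneg s
      have h4 := norm_nonneg v
      constructor
      · nlinarith
      · rw [Real.norm_eq_abs, abs_le]
        constructor <;> nlinarith
  exact isCompact_iff_compactSpace.1 h

private theorem precon : PreconnectedSpace (EuclideanHalfSpace (n + 1)) := by
  have hc : Convex ℝ {x : V (n + 1) | 0 ≤ x 0} := by
    intro x hx y hy a b ha hb _
    have hx' : 0 ≤ x 0 := hx
    have hy' : 0 ≤ y 0 := hy
    show 0 ≤ (a • x + b • y) 0
    simp only [PiLp.add_apply, PiLp.smul_apply, smul_eq_mul]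
    positivity
  exact Subtype.preconnectedSpace hc.isPreconnected

private theorem cont_invst (σ : ℝ) (hσ : σ ^ 2 = 1) :
    Continuous (invst σ hσ : EuclideanHalfSpace (n + 1) → Hemi n) :=
  continuousOn_univ.1 (stereo (n := n) σ hσ).continuousOn_invFun

private theorem mem_range_invst (σ : ℝ) (hσ : σ ^ 2 = 1) {p : Hemi n} (hp : σ * p.s ≠ 1) :
    p ∈ range (invst σ hσ : EuclideanHalfSpace (n + 1) → Hemi n) :=
  ⟨stereo σ hσ p, (stereo (n := n) σ hσ).left_inv' hp⟩

instance : ConnectedSpace (Hemi n) := by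
  have := precon (n := n)
  have h0 : (0 : ℝ) ≤ (EuclideanSpace.single (0 : Fin (n + 1)) (1 : ℝ)) 0 := by simp
  have hn : ‖EuclideanSpace.single (0 : Fin (n + 1)) (1 : ℝ)‖ = 1 := by simp
  have he : invst (n := n) 1 one_sq' ⟨EuclideanSpace.single (0 : Fin (n + 1)) (1 : ℝ), h0⟩
      = invst (-1) neg_one_sq' ⟨EuclideanSpace.single (0 : Fin (n + 1)) (1 : ℝ), h0⟩ := by
    apply Hemi.ext
    · rfl
    · show 1 * (‖EuclideanSpace.single (0 : Fin (n + 1)) (1 : ℝ)‖ ^ 2 - 1) /
          (1 + ‖EuclideanSpace.single (0 : Fin (n + 1)) (1 : ℝ)‖ ^ 2) =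
        -1 * (‖EuclideanSpace.single (0 : Fin (n + 1)) (1 : ℝ)‖ ^ 2 - 1) /
          (1 + ‖EuclideanSpace.single (0 : Fin (n + 1)) (1 : ℝ)‖ ^ 2)
      rw [hn]
      norm_num
  have hm : invst (n := n) 1 one_sq' ⟨EuclideanSpace.single (0 : Fin (n + 1)) (1 : ℝ), h0⟩
      ∈ range (invst (n := n) (-1) neg_one_sq') := by
    rw [he]
    exact mem_range_self _
  have hu : IsPreconnected (range (invst (n := n) 1 one_sq') ∪ range (invst (-1) neg_one_sq')) :=
    IsPreconnected.union _ (mem_range_self _) hm
      (isPreconnected_range (cont_invst 1 one_sq'))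
      (isPreconnected_range (cont_invst (-1) neg_one_sq'))
  have hall : range (invst (n := n) 1 one_sq') ∪ range (invst (-1) neg_one_sq') = univ := by
    apply eq_univ_of_forall
    intro p
    by_cases h : 1 * p.s = 1
    · right
      apply mem_range_invst
      rw [one_mul] at h
      rw [h]
      norm_num
    · left
      exact mem_range_invst 1 one_sq' h
  rw [hall] at hu
  have : PreconnectedSpace (Hemi n) := ⟨hu⟩
  exact ⟨⟨invst (n := n) 1 one_sq' ⟨EuclideanSpace.single (0 : Fin (n + 1)) (1 : ℝ), h0⟩⟩⟩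

end Pool.Agent.CY
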