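import Pool.Agent.CY.S6.Beta
import Pool.Agent.CY.S6.Curv
import Pool.Agent.CY.S6.HemiTop
import Pool.Agent.CY.S3.Fin
import Pool.Agent.CY.S3.Points

/-!
Project CY, part S6: the volume of the hemisphere and the upper bound for `Y_1`.

PLAN.  Points are null: `vol_singleton`, `int_vol_chart_punct` (S3/Points.lean).
`vol_hemi`: the complement of the source of `stereo 1` is the point with `s = 1` (then `v = 0`);
`vol_spec` with `A = e.source`, `co e '' A = dom e = Hs n` (`image_co_source`, `dom_stereo`);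
`det ((2/(1+|y|²))² • 1) = ((2/(1+|y|²))^(n+1))²` (`Matrix.det_smul`), `Real.sqrt_sq`.  The integral over the half
space is half of `S6.integral_sphere (n+1)`: reflection `y ↦ -y` (`y ↦ -y` is measure preserving, the
integrand is even, `{y | y 0 = 0}` is null: `volume_Hs_diff_Ho`).
`Y1_hemi`: `scalX (hg n) p = (n+1) n` for every `p` (`scal_round` on the domain `dom e`), `meanX (hg n) p = 0`
(`meanCurv_round`), so `energy (hg n) = n (n+1) V` with `V = om (n+1)/2`, and
`n(n+1) V / V^((n-1)/(n+1)) = n (n+1) V^(2/(n+1)) = An n` is a member of the set (`u = 1`, `h = hg n`).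
If the set is bounded below: `csInf_le`.  If not: `Real.sInf_of_not_bddBelow` gives `Y1 = 0 ≤ An n`.
-/

set_option autoImplicit false

open scoped Manifold ContDiff
open MeasureTheory Set Filter Topology

namespace Pool.Agent.CY

theorem integral_half (m : ℕ) (f : V (m + 1) → ℝ) (hf : Integrable f) (he : ∀ y, f (-y) = f y) :
    ∫ y in Hs m, f y = (∫ y, f y) / 2 := by
  have h1 : ∫ y in Hs m, f y = ∫ y in Ho m, f y := by rw [restrict_Hs]
  have h2 : ∫ y in (Ho m)ᶜ, f y = ∫ y in Hs m, f y := by
    have h3 : (Ho m)ᶜ = (MeasurableEquiv.neg (V (m + 1))) ⁻¹' (Hs m) := by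
      ext y
      simp only [mem_compl_iff, Ho, mem_setOf_eq, not_lt, mem_preimage, MeasurableEquiv.neg_apply, Hs,
        PiLp.neg_apply, Left.nonneg_neg_iff]
    have h4 : MeasurePreserving (MeasurableEquiv.neg (V (m + 1))) volume volume :=
      Measure.measurePreserving_neg (volume : Measure (V (m + 1)))
    have h5 := h4.setIntegral_preimage_emb (MeasurableEquiv.neg (V (m + 1))).measurableEmbedding f (Hs m)
    rw [h3, ← h5]
    refine setIntegral_congr_fun ?_ ?_
    · exact (MeasurableEquiv.neg (V (m + 1))).measurable measurableSet_Hs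
    · intro y _
      exact (he y).symm
  have h6 := integral_add_compl (measurableSet_Ho (n := m)) hf
  rw [h2, ← h1] at h6
  linarith

variable {n : ℕ}

/-- the north pole -/
private def hv_q : Hemi n := ⟨((0 : V (n + 1)), (1 : ℝ)), by simp, by simp⟩

private theorem hv_src (p : Hemi n) (h : p ∉ (stereo 1 one_sq' : OpenPartialHomeomorph (Hemi n) _).source) :
    p = hv_q := by
  have h1 : 1 * p.s = 1 := by
    by_contra h2
    exact h h2
  rw [one_mul] at h1
  have h2 := p.eq
  rw [h1] at h2
  have h3 : ‖p.v‖ = 0 := by nlinarith [norm_nonneg p.v]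
  exact Hemi.ext (norm_eq_zero.1 h3) h1

private theorem hv_rho (y : V (n + 1)) :
    rhoS (hg n) (stereo 1 one_sq') y = (2 / (1 + ‖y‖ ^ 2)) ^ (n + 1) := by
  show Real.sqrt (roundG (n + 1) y).det = _
  have h : (0:ℝ) ≤ (2 / (1 + ‖y‖ ^ 2)) ^ (n + 1) := by positivity
  rw [roundG, Matrix.det_smul, Matrix.det_one, mul_one, Fintype.card_fin, ← pow_mul, mul_comm 2 (n + 1),
    pow_mul, Real.sqrt_sq h]

theorem vol_hemi : (vol (hg n) univ).toReal = om (n + 1) / 2 := by
  have h1 := int_vol_chart_punct (hg n) (stereo_mem 1 one_sq') (fun _ => (1:ℝ)) hv_q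
    (fun p hp hps => absurd (hv_src p hps) hp)
  rw [dom_stereo, integral_const, smul_eq_mul, mul_one] at h1
  simp only [one_mul, hv_rho] at h1
  rw [integral_half n _ (S6.integrable_sphere (n + 1) (by omega)) (fun y => by rw [norm_neg]),
    S6.integral_sphere (n + 1) (by omega)] at h1
  exact h1

private theorem hv_scal (p : Hemi n) : scalX (hg n) p = (n : ℝ) * ((n : ℝ) + 1) := by
  have h := scal_round (m := n + 1) (dom_chart (ch (n := n) p))
    (co_mem_dom (ch (n := n) p) (mem_chart_source (EuclideanHalfSpace (n + 1)) p))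
  push_cast at h
  have h2 : scalX (hg n) p = scal (Hs n) (roundG (n + 1)) (co (ch (n := n) p) p) := rfl
  rw [h2, h]; ring

private theorem hv_mean (p : Hemi n) : meanX (hg n) p = 0 := meanCurv_round _

theorem energy_hemi : energy (hg n) = (n : ℝ) * ((n : ℝ) + 1) * (om (n + 1) / 2) := by
  unfold energy
  simp only [hv_scal, hv_mean, integral_const, smul_zero, mul_zero, add_zero, smul_eq_mul]
  have h := vol_hemi (n := n)
  rw [measureReal_def, h]; ring

theorem Y1_hemi (hn : 3 ≤ n) : Y1 (hg n) ≤ An n := by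
  have hV : 0 < om (n + 1) / 2 := by have := S6.om_pos (n + 1); positivity
  have hA : 0 ≤ An n := by
    unfold An
    have := Real.rpow_pos_of_pos hV (2 / ((n : ℝ) + 1))
    positivity
  unfold Y1
  set s : Set ℝ := {y : ℝ | ∃ (u : Hemi n → ℝ) (h : Metric n (Hemi n)), u ∈ PosSmooth n (Hemi n) ∧
    IsConf u (hg n) h ∧
    y = energy h / (vol h univ).toReal ^ (((n : ℝ) - 1) / ((n : ℝ) + 1))} with hs
  have hmem : An n ∈ s := by
    refine ⟨fun _ => 1, hg n, ⟨contMDiff_const, fun _ => one_pos⟩, ?_, ?_⟩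
    · intro e _ y _
      simp
    · rw [energy_hemi, vol_hemi, An, mul_div_assoc]
      congr 1
      have h1 : (2:ℝ) / ((n : ℝ) + 1) = 1 - ((n : ℝ) - 1) / ((n : ℝ) + 1) := by
        field_simp; ring
      rw [h1, Real.rpow_sub hV, Real.rpow_one]
  by_cases hb : BddBelow s
  · exact csInf_le hb hmem
  · rw [Real.sInf_of_not_bddBelow hb]
    exact hA

end Pool.Agent.CY
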