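import Pool.Agent.CY.S6.SphCore
import Pool.Agent.CY.S6.HemiVol
import Pool.Agent.CY.S6.HemiCCE
import Pool.Agent.CY.S3.ConfVol

/-!
Project CY, part S6: the Yamabe constant of the boundary sphere is at least `Yn n`.

PLAN.  Let `u ∈ PosSmooth`, `IsConf u (hg n) h`, `e = stereo 1 one_sq'`, and
`w z = (u (pt e (bd z)) * (2/(1+|z|²)))^((n-2)/2)` (def `hw`).
`hw_rpow`: `w^(2/(n-2)) = u * 2/(1+|z|²)`; `tang_h`: `tang (h.G e) z = (w z^(2/(n-2)))² • 1` (IsConf at
`y = bd z ∈ dom e = Hs n`, `‖bd z‖ = ‖z‖`: `EuclideanSpace.norm_sq_eq`, `Fin.sum_univ_succ`).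
`scal_h`: `S6.scal_yamabe` (`m = n`, `S = U = univ`, `g = fun _ => 1`; the metric `1` has `scal = 0` and
`lap = lap0`, because all `Gam` vanish: `pd_const`).
`int_h`: `∫ Ψ ∂(bvol h) = ∫ z, Ψ (pt e (bd z)) * w z ^ (2n/(n-2))`: the complement of `e.source` is one point,
`int_bvol_chart_punct` (S3/Points.lean), `bdom e = univ`; `rhoB h e z = sqrt (det ((w^(2/(n-2)))² • 1)) = w^(2n/(n-2))`.
`bscal_h`: for `p = pt e (bd z)`: `p ∈ boundary` (`pt_bd_mem_boundary`), `S6.bscalX_eq`.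
`bdd_h`: the function `z ↦ scal univ (tang (h.G e)) z` is bounded: continuous (`S6.continuousOn_scal`), so bounded on
`|z| ≤ 1`; for `|z| ≥ 1` use `S6.bscalX_eq` for the chart `e' = stereo (-1)` at the same point, whose coordinates are
`(|z|²)⁻¹ z` (`tr_stereo`), and continuity of `scal univ (tang (h.G e'))` on the closed unit ball.
So `w * lap0 w` (which is `-(1/c') * scal * w^(2n/(n-2))`, `c' = 4(n-1)/(n-2)`) is integrable.
`w² ≤ C (1+|z|²)^{-(n-2)}`: `u` is bounded (continuous on a compact space).  Conclude with `S6.sphere_core`,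
`le_csInf` (the set is nonempty: `u = 1`, `h = hg n`); the denominator is positive.
-/

set_option autoImplicit false

open scoped Manifold ContDiff
open MeasureTheory Set Filter Topology

namespace Pool.Agent.CY

variable {n : ℕ}

/-- The conformal factor on `ℝ^n`. -/
noncomputable def hw (u : Hemi n → ℝ) (z : V n) : ℝ :=
  (u (pt (stereo 1 one_sq') (bd z)) * (2 / (1 + ‖z‖ ^ 2))) ^ (((n : ℝ) - 2) / 2)

theorem norm_bd (z : V n) : ‖bd z‖ = ‖z‖ := by
  rw [EuclideanSpace.norm_eq, EuclideanSpace.norm_eq, Fin.sum_univ_succ]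
  simp

private theorem one_add_pos (z : V n) : 0 < 1 + ‖z‖ ^ 2 := by positivity

private theorem base_pos {u : Hemi n → ℝ} (hu : u ∈ PosSmooth n (Hemi n)) (z : V n) :
    0 < u (pt (stereo 1 one_sq') (bd z)) * (2 / (1 + ‖z‖ ^ 2)) :=
  mul_pos (hu.2 _) (by positivity)

theorem hw_pos {u : Hemi n → ℝ} (hu : u ∈ PosSmooth n (Hemi n)) (z : V n) : 0 < hw u z :=
  Real.rpow_pos_of_pos (base_pos hu z) _

theorem hw_smooth {u : Hemi n → ℝ} (hu : u ∈ PosSmooth n (Hemi n)) : ContDiff ℝ ∞ (hw u) := by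
  have h1 : ContDiffOn ℝ ∞ (fun y => u (pt (stereo 1 one_sq') y))
      (dom (stereo 1 one_sq' : OpenPartialHomeomorph (Hemi n) _)) :=
    contDiffOn_loc (stereo_mem 1 one_sq') hu.1
  rw [dom_stereo] at h1
  have h2 : ContDiff ℝ ∞ (fun z : V n => u (pt (stereo 1 one_sq') (bd z))) := by
    rw [← contDiffOn_univ]
    exact h1.comp (contDiffOn_univ.2 contDiff_bd) (fun z _ => bd_mem_Hs z)
  have h3 : ContDiff ℝ ∞ (fun z : V n => (2 : ℝ) / (1 + ‖z‖ ^ 2)) :=
    contDiff_const.div (contDiff_const.add (contDiff_norm_sq ℝ)) fun z => (one_add_pos z).ne'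
  exact (h2.mul h3).rpow_const_of_ne fun z => (base_pos hu z).ne'

theorem hw_rpow (hn : 3 ≤ n) {u : Hemi n → ℝ} (hu : u ∈ PosSmooth n (Hemi n)) (z : V n) :
    hw u z ^ (2 / ((n : ℝ) - 2)) = u (pt (stereo 1 one_sq') (bd z)) * (2 / (1 + ‖z‖ ^ 2)) := by
  have hn0 : (3 : ℝ) ≤ n := by exact_mod_cast hn
  have hn2 : (n : ℝ) - 2 ≠ 0 := by linarith
  rw [hw, ← Real.rpow_mul (base_pos hu z).le]
  have : ((n : ℝ) - 2) / 2 * (2 / ((n : ℝ) - 2)) = 1 := by field_simp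
  rw [this, Real.rpow_one]

theorem tang_h (hn : 3 ≤ n) {u : Hemi n → ℝ} (hu : u ∈ PosSmooth n (Hemi n)) {h : Metric n (Hemi n)}
    (hh : IsConf u (hg n) h) (z : V n) :
    tang (h.G (stereo 1 one_sq')) z
      = (hw u z ^ (2 / ((n : ℝ) - 2))) ^ 2 • (1 : Matrix (Fin n) (Fin n) ℝ) := by
  rw [hw_rpow hn hu]
  have h1 := hh (stereo 1 one_sq') (stereo_mem 1 one_sq') (bd z)
    (by rw [dom_stereo]; exact bd_mem_Hs z)
  ext a b
  have h2 : tang (h.G (stereo 1 one_sq')) z a b = h.G (stereo 1 one_sq') (bd z) a.succ b.succ := rfl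
  rw [h2, h1]
  have h3 : (hg n).G (stereo 1 one_sq') (bd z) = roundG (n + 1) (bd z) := rfl
  rw [h3, Matrix.smul_apply, roundG_apply, norm_bd, Matrix.smul_apply, Matrix.one_apply]
  simp only [Fin.succ_inj, smul_eq_mul]
  ring

private theorem dom_univ : Dom (univ : Set (V n)) univ := dom_of_open isOpen_univ

theorem scal_h (hn : 3 ≤ n) {u : Hemi n → ℝ} (hu : u ∈ PosSmooth n (Hemi n)) {h : Metric n (Hemi n)}
    (hh : IsConf u (hg n) h) (z : V n) :
    scal univ (tang (h.G (stereo 1 one_sq'))) z =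
      hw u z ^ (-((n : ℝ) + 2) / ((n : ℝ) - 2)) *
        (-(4 * ((n : ℝ) - 1) / ((n : ℝ) - 2)) * S6.lap0 (hw u) z) := by
  have h1 : tang (h.G (stereo 1 one_sq')) =
      fun z => (hw u z ^ (2 / ((n : ℝ) - 2))) ^ 2 • (1 : Matrix (Fin n) (Fin n) ℝ) :=
    funext fun z => tang_h hn hu hh z
  rw [h1]
  have h2 := S6.scal_yamabe (S := (univ : Set (V n))) (U := univ) hn dom_univ
    (S6.metOn_one (k := 2)) (u := hw u) ((hw_smooth hu).contDiffOn.of_le (by norm_cast))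
    (fun z _ => hw_pos hu z) (mem_univ z)
  rw [h2, S6.lap_one, S6.scal_one, zero_mul, add_zero]
  rfl

/-- the missing point -/
private def qpt (n : ℕ) : Hemi n := ⟨(0, 1), by simp, by simp⟩

private theorem eq_qpt (p : Hemi n) (hp : p ∉ (stereo 1 one_sq' : OpenPartialHomeomorph (Hemi n) _).source) :
    p = qpt n := by
  have h1 : 1 * p.s = 1 := by
    by_contra h
    exact hp h
  rw [one_mul] at h1
  have h2 := p.eq
  rw [h1] at h2
  have h3 : ‖p.v‖ ^ 2 = 0 := by linarith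
  have h4 : p.v = 0 := by simpa using h3
  exact Hemi.ext h4 h1

private theorem bdom_st (σ : ℝ) (hσ : σ ^ 2 = 1) :
    bdom (stereo σ hσ : OpenPartialHomeomorph (Hemi n) _) = univ := by
  ext z
  simp only [mem_univ, iff_true]
  show bd z ∈ dom _
  rw [dom_stereo]
  exact bd_mem_Hs z

private theorem rhoB_h (hn : 3 ≤ n) {u : Hemi n → ℝ} (hu : u ∈ PosSmooth n (Hemi n))
    {h : Metric n (Hemi n)} (hh : IsConf u (hg n) h) (z : V n) :
    rhoB h (stereo 1 one_sq') z = hw u z ^ (2 * (n : ℝ) / ((n : ℝ) - 2)) := by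
  have hn0 : (3 : ℝ) ≤ n := by exact_mod_cast hn
  have hn2 : (n : ℝ) - 2 ≠ 0 := by linarith
  have hw0 := hw_pos hu z
  have h0 : (0 : ℝ) ≤ (hw u z ^ (2 / ((n : ℝ) - 2))) ^ n := by positivity
  rw [rhoB, tang_h hn hu hh, Matrix.det_smul, Matrix.det_one, mul_one, Fintype.card_fin, ← pow_mul,
    mul_comm 2 n, pow_mul, Real.sqrt_sq h0, ← Real.rpow_natCast, ← Real.rpow_mul hw0.le]
  congr 1
  field_simp

theorem int_h (hn : 3 ≤ n) {u : Hemi n → ℝ} (hu : u ∈ PosSmooth n (Hemi n)) {h : Metric n (Hemi n)}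
    (hh : IsConf u (hg n) h) (Ψ : Hemi n → ℝ) :
    ∫ p, Ψ p ∂(bvol h) =
      ∫ z, Ψ (pt (stereo 1 one_sq') (bd z)) * hw u z ^ (2 * (n : ℝ) / ((n : ℝ) - 2)) := by
  rw [int_bvol_chart_punct (by omega) h (stereo_mem 1 one_sq') Ψ (qpt n)
    (fun p _ hpq hps => absurd (eq_qpt p hps) hpq), bdom_st, setIntegral_univ]
  refine integral_congr_ae (Filter.Eventually.of_forall fun z => ?_)
  simp only []
  rw [rhoB_h hn hu hh]

private theorem metOn_tangH (h : Metric n (Hemi n)) (σ : ℝ) (hσ : σ ^ 2 = 1) :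
    MetOn univ (tang (h.G (stereo σ hσ))) 2 where
  pos := fun z _ => h.tang_posDef (stereo_mem σ hσ) (by rw [bdom_st]; trivial)
  smooth := fun a b => by
    have h1 := h.smooth (stereo σ hσ) (stereo_mem σ hσ) a.succ b.succ
    rw [dom_stereo] at h1
    have h2 : ContDiffOn ℝ 3 (fun z : V n => h.G (stereo σ hσ) (bd z) a.succ b.succ) univ :=
      h1.comp ((contDiff_bd.of_le (by norm_cast)).contDiffOn) (fun z _ => bd_mem_Hs z)
    exact h2.of_le (by norm_num)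

private theorem bdd_ball (h : Metric n (Hemi n)) (σ : ℝ) (hσ : σ ^ 2 = 1) :
    ∃ C : ℝ, ∀ z : V n, ‖z‖ ≤ 1 → |scal univ (tang (h.G (stereo σ hσ))) z| ≤ C := by
  have h1 : ContinuousOn (scal univ (tang (h.G (stereo σ hσ)))) (univ : Set (V n)) :=
    S6.continuousOn_scal dom_univ (metOn_tangH h σ hσ)
  obtain ⟨C, hC⟩ := (isCompact_closedBall (0 : V n) 1).exists_bound_of_continuousOn
    (h1.mono (subset_univ _))
  exact ⟨C, fun z hz => hC z (by simpa using hz)⟩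

private theorem bscal_pt (h : Metric n (Hemi n)) (z : V n) :
    bscalX h (pt (stereo 1 one_sq') (bd z)) = scal univ (tang (h.G (stereo 1 one_sq'))) z := by
  have hz : bd z ∈ dom (stereo 1 one_sq' : OpenPartialHomeomorph (Hemi n) _) := by
    rw [dom_stereo]; exact bd_mem_Hs z
  rw [S6.bscalX_eq h (stereo_mem 1 one_sq') (pt_mem_source _ hz)
    (pt_bd_mem_boundary (stereo_mem 1 one_sq') hz), co_pt _ hz, tl_bd]

theorem bdd_h (hn : 3 ≤ n) (h : Metric n (Hemi n)) :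
    ∃ C : ℝ, ∀ z : V n, |scal univ (tang (h.G (stereo 1 one_sq'))) z| ≤ C := by
  obtain ⟨C, hC⟩ := bdd_ball h 1 one_sq'
  obtain ⟨C', hC'⟩ := bdd_ball h (-1) neg_one_sq'
  refine ⟨max C C', fun z => ?_⟩
  rcases le_total ‖z‖ 1 with hz | hz
  · exact (hC z hz).trans (le_max_left _ _)
  · have hz0 : bd z ≠ 0 := by
      intro h0
      have := norm_bd z
      rw [h0, norm_zero] at this
      linarith
    have hd : bd z ∈ dom (stereo 1 one_sq' : OpenPartialHomeomorph (Hemi n) _) := by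
      rw [dom_stereo]; exact bd_mem_Hs z
    have h2 := (mem_dom2_stereo (n := n) 1 one_sq' neg_one_sq').2 ⟨bd_mem_Hs z, hz0⟩
    have h3 : bscalX h (pt (stereo 1 one_sq') (bd z)) =
        scal univ (tang (h.G (stereo (-1) neg_one_sq'))) (tl (tr (stereo 1 one_sq') (stereo (-1) neg_one_sq') (bd z))) :=
      S6.bscalX_eq h (stereo_mem (-1) neg_one_sq') h2.2
        (pt_bd_mem_boundary (stereo_mem 1 one_sq') hd)
    rw [← bscal_pt, h3]
    refine (hC' _ ?_).trans (le_max_right _ _)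
    rw [tr_stereo 1 one_sq' neg_one_sq' (bd_mem_Hs z), norm_bd]
    have h4 : tl ((‖z‖ ^ 2)⁻¹ • bd z) = (‖z‖ ^ 2)⁻¹ • z := by
      ext i
      simp [tl]
    rw [h4, norm_smul, Real.norm_eq_abs, abs_of_nonneg (by positivity)]
    have h5 : 0 < ‖z‖ := by linarith
    have h6 : (‖z‖ ^ 2)⁻¹ * ‖z‖ = ‖z‖⁻¹ := by field_simp
    rw [h6]
    exact inv_le_one_of_one_le₀ hz

private theorem qpt_mem : qpt n ∈ (𝓡∂ (n + 1)).boundary (Hemi n) := by
  rw [boundary_hemi]
  rfl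

private theorem hw_sq (hn : 3 ≤ n) {u : Hemi n → ℝ} (hu : u ∈ PosSmooth n (Hemi n)) :
    ∃ C : ℝ, ∀ z : V n, hw u z ^ 2 ≤ C * (1 + ‖z‖ ^ 2) ^ (-((n : ℝ) - 2)) := by
  have hn0 : (3 : ℝ) ≤ n := by exact_mod_cast hn
  have hc : Continuous u := hu.1.continuous
  obtain ⟨U, hU⟩ := isCompact_univ.exists_bound_of_continuousOn hc.continuousOn
  refine ⟨(2 * U) ^ ((n : ℝ) - 2), fun z => ?_⟩
  have hA := one_add_pos z
  have hb := base_pos hu z
  have hu0 := hu.2 (pt (stereo 1 one_sq') (bd z))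
  have hU1 : u (pt (stereo 1 one_sq') (bd z)) ≤ U :=
    (le_abs_self _).trans (hU _ (mem_univ _))
  have h1 : hw u z ^ 2 = (u (pt (stereo 1 one_sq') (bd z)) * (2 / (1 + ‖z‖ ^ 2))) ^ ((n : ℝ) - 2) := by
    rw [hw, ← Real.rpow_natCast, ← Real.rpow_mul hb.le]
    congr 1
    push_cast
    ring
  have h2 : u (pt (stereo 1 one_sq') (bd z)) * (2 / (1 + ‖z‖ ^ 2)) ≤ (2 * U) * (1 + ‖z‖ ^ 2)⁻¹ := by
    rw [div_eq_mul_inv, ← mul_assoc]
    apply mul_le_mul_of_nonneg_right _ (inv_nonneg.2 hA.le)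
    linarith
  rw [h1]
  refine (Real.rpow_le_rpow hb.le h2 (by linarith)).trans (le_of_eq ?_)
  rw [Real.mul_rpow (by linarith) (inv_nonneg.2 hA.le), Real.inv_rpow hA.le, Real.rpow_neg hA.le]

theorem YB_hemi (hn : 3 ≤ n)
    (hsob : ∀ u : V n → ℝ, ContDiff ℝ 1 u → HasCompactSupport u →
      Yn n * (∫ x, |u x| ^ (2 * (n : ℝ) / ((n : ℝ) - 2))) ^ (((n : ℝ) - 2) / (n : ℝ)) ≤
        4 * ((n : ℝ) - 1) / ((n : ℝ) - 2) * ∫ x, ‖fderiv ℝ u x‖ ^ 2) :
    Yn n ≤ YB (hg n) := by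
  have hn0 : (3 : ℝ) ≤ n := by exact_mod_cast hn
  have hn2 : (n : ℝ) - 2 ≠ 0 := by linarith
  have hc0 : 0 < 4 * ((n : ℝ) - 1) / ((n : ℝ) - 2) := by
    apply div_pos <;> linarith
  apply le_csInf
  · refine ⟨_, fun _ => 1, hg n, ⟨contMDiff_const, fun _ => one_pos⟩, ?_, rfl⟩
    intro e _ y _
    simp
  rintro y ⟨u, h, hu, hh, rfl⟩
  set w := hw u with hwdef
  set p : ℝ := 2 * (n : ℝ) / ((n : ℝ) - 2) with hp
  have hw0 : ∀ z, 0 < w z := hw_pos hu
  have hvol : (bvol h univ).toReal = ∫ z, w z ^ p := by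
    have h1 := int_h hn hu hh (fun _ => 1)
    simp only [one_mul] at h1
    rw [← h1, integral_const, smul_eq_mul, mul_one]
    rfl
  have hvpos : 0 < ∫ z, w z ^ p := by
    rw [← hvol]
    exact ENNReal.toReal_pos (bvol_ne h ⟨_, qpt_mem⟩) (bvol_lt_top h).ne
  have hwp : Integrable (fun z => w z ^ p) := by
    by_contra hcon
    rw [integral_undef hcon] at hvpos
    exact lt_irrefl _ hvpos
  have hprod : ∀ z, scal univ (tang (h.G (stereo 1 one_sq'))) z * w z ^ p =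
      -(4 * ((n : ℝ) - 1) / ((n : ℝ) - 2)) * (w z * S6.lap0 w z) := by
    intro z
    have h1 : w z ^ (-((n : ℝ) + 2) / ((n : ℝ) - 2)) * w z ^ p = w z := by
      rw [← Real.rpow_add (hw0 z)]
      have : -((n : ℝ) + 2) / ((n : ℝ) - 2) + p = 1 := by
        rw [hp]; field_simp; ring
      rw [this, Real.rpow_one]
    rw [scal_h hn hu hh]
    calc _ = (w z ^ (-((n : ℝ) + 2) / ((n : ℝ) - 2)) * w z ^ p) *
          (-(4 * ((n : ℝ) - 1) / ((n : ℝ) - 2)) * S6.lap0 w z) := by rw [hwdef]; ring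
      _ = _ := by rw [h1]; ring
  have hnum : ∫ q, bscalX h q ∂(bvol h) =
      -(4 * ((n : ℝ) - 1) / ((n : ℝ) - 2)) * ∫ z, w z * S6.lap0 w z := by
    rw [int_h hn hu hh, ← integral_const_mul]
    refine integral_congr_ae (Filter.Eventually.of_forall fun z => ?_)
    simp only []
    rw [bscal_pt]
    exact hprod z
  obtain ⟨C, hC⟩ := hw_sq hn hu
  obtain ⟨B, hB⟩ := bdd_h hn h
  have hws : ContDiff ℝ ∞ w := hw_smooth hu
  have hlapc : Continuous (S6.lap0 w) := by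
    have h1 : ∀ i, ContDiffOn ℝ ∞ (pd univ i w) (univ : Set (V n)) := fun i =>
      dom_univ.contDiffOn_pd i (by norm_cast) hws.contDiffOn
    have h2 : ∀ i, ContDiffOn ℝ ∞ (pd univ i (pd univ i w)) (univ : Set (V n)) := fun i =>
      dom_univ.contDiffOn_pd i (by norm_cast) (h1 i)
    unfold S6.lap0
    exact continuous_finsetSum _ fun i _ => continuousOn_univ.1 (h2 i).continuousOn
  have hint : Integrable (fun z => w z * S6.lap0 w z) := by
    have h1 : Integrable (fun z => (4 * ((n : ℝ) - 1) / ((n : ℝ) - 2))⁻¹ * B * w z ^ p) :=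
      hwp.const_mul _
    refine h1.mono' (hws.continuous.mul hlapc).aestronglyMeasurable
      (Filter.Eventually.of_forall fun z => ?_)
    have h2 := hprod z
    have h3 : w z * S6.lap0 w z = -(4 * ((n : ℝ) - 1) / ((n : ℝ) - 2))⁻¹ *
        (scal univ (tang (h.G (stereo 1 one_sq'))) z * w z ^ p) := by
      rw [h2]
      have hne : 4 * ((n : ℝ) - 1) / ((n : ℝ) - 2) ≠ 0 := hc0.ne'
      rw [← mul_assoc, neg_mul_neg, inv_mul_cancel₀ hne, one_mul]
    have hwz : 0 < w z ^ p := Real.rpow_pos_of_pos (hw0 z) _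
    rw [Real.norm_eq_abs, h3, abs_mul, abs_mul, abs_neg, abs_of_pos (inv_pos.2 hc0), abs_of_pos hwz,
      mul_assoc]
    exact mul_le_mul_of_nonneg_left (mul_le_mul_of_nonneg_right (hB z) hwz.le) (inv_pos.2 hc0).le
  have hcore := S6.sphere_core n hn w (hws.of_le (by norm_cast)) hw0 C hC hint hsob
  rw [hnum, hvol, le_div_iff₀ (Real.rpow_pos_of_pos hvpos _)]
  exact hcore

end Pool.Agent.CY
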