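import Pool.Agent.CY.S5.Met
import Pool.Agent.CY.S5.Jac
import Pool.Agent.CY.S5.ConfRic
import Pool.Agent.CY.S5.ConfX
import Pool.Agent.CY.S5.Curv
import Pool.Agent.CY.S5.Rel
import Pool.Agent.CY.Geo
import Pool.Agent.CY.S3.Base

/-!
Project CY, parts S6/S7: interface lemmas provided by part S5 (helper6, helper90).
-/

set_option autoImplicit false
set_option linter.unusedSectionVars false

open scoped Manifold ContDiff ENNReal
open MeasureTheory Set Filter Topology

namespace Pool.Agent.CY.S6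

section loc

variable {m : ℕ} {S U : Set (V m)} {g : MF m}

/-- Scalar curvature of `u^{4/(m-2)} g`. -/
theorem scal_yamabe (hm : 3 ≤ m) (hD : Dom S U) (hg : MetOn U g 2) {u : V m → ℝ}
    (hu : ContDiffOn ℝ 2 u U) (h0 : ∀ z ∈ U, 0 < u z) {y : V m} (hy : y ∈ U) :
    scal S (fun z => (u z ^ (2 / ((m : ℝ) - 2))) ^ 2 • g z) y =
      u y ^ (-((m : ℝ) + 2) / ((m : ℝ) - 2)) *
        (-(4 * ((m : ℝ) - 1) / ((m : ℝ) - 2)) * lap S g u y + scal S g y * u y) :=
  CY.scal_yamabe hm hD hg hu h0 hy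

theorem metOn_one {k : WithTop ℕ∞} : MetOn U (fun _ => (1 : Matrix (Fin m) (Fin m) ℝ)) k where
  pos := fun _ _ => Matrix.PosDef.one
  smooth := fun _ _ => contDiffOn_const

theorem Gam_one (k i j : Fin m) (y : V m) : Gam S (fun _ => (1 : Matrix (Fin m) (Fin m) ℝ)) k i j y = 0 := by
  simp [Gam, pd_const]

theorem Ric_one (i j : Fin m) (y : V m) : Ric S (fun _ => (1 : Matrix (Fin m) (Fin m) ℝ)) i j y = 0 := by
  have h : ∀ k i j, Gam S (fun _ => (1 : Matrix (Fin m) (Fin m) ℝ)) k i j = fun _ => 0 := by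
    intro k i j
    funext y
    exact Gam_one k i j y
  simp [Ric, h, pd_const]

theorem scal_one (y : V m) : scal S (fun _ => (1 : Matrix (Fin m) (Fin m) ℝ)) y = 0 := by
  simp [scal, Ric_one]

theorem hess_one (f : V m → ℝ) (i j : Fin m) (y : V m) :
    hess S (fun _ => (1 : Matrix (Fin m) (Fin m) ℝ)) f i j y = pd S i (pd S j f) y := by
  simp [hess, Gam_one]

theorem lap_one (f : V m → ℝ) (y : V m) :
    lap S (fun _ => (1 : Matrix (Fin m) (Fin m) ℝ)) f y = ∑ i, pd S i (pd S i f) y := by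
  simp only [lap, hess_one, inv_one, Matrix.one_apply]
  refine Finset.sum_congr rfl fun i _ => ?_
  simp

theorem gip_one (f k : V m → ℝ) (y : V m) :
    gip S (fun _ => (1 : Matrix (Fin m) (Fin m) ℝ)) f k y = ∑ i, pd S i f y * pd S i k y := by
  simp only [gip, inv_one, Matrix.one_apply]
  refine Finset.sum_congr rfl fun i _ => ?_
  simp

/-- Ricci curvature of `e^{2ψ} δ`. -/
theorem Ric_conf_flat (hD : Dom S U) {φ : V m → ℝ} (hφ : ContDiffOn ℝ 2 φ U) (h0 : ∀ z ∈ U, 0 < φ z)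
    {y : V m} (hy : y ∈ U) (i j : Fin m) :
    Ric S (fun z => φ z ^ 2 • (1 : Matrix (Fin m) (Fin m) ℝ)) i j y =
      -((m : ℝ) - 2) * (pd S i (pd S j (fun z => Real.log (φ z))) y
          - pd S i (fun z => Real.log (φ z)) y * pd S j (fun z => Real.log (φ z)) y)
      - (∑ k, pd S k (pd S k (fun z => Real.log (φ z))) y
          + ((m : ℝ) - 2) * ∑ k, (pd S k (fun z => Real.log (φ z)) y) ^ 2)
        * (1 : Matrix (Fin m) (Fin m) ℝ) i j := by
  have h := Ric_conf hD (metOn_one (U := U) (k := 2)) hφ h0 i j hy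
  rw [Ric_one, hess_one, lap_one, gip_one] at h
  have h2 : (cf φ fun _ => (1 : Matrix (Fin m) (Fin m) ℝ)) = fun z => φ z ^ 2 • (1 : Matrix (Fin m) (Fin m) ℝ) := rfl
  have h3 : lg φ = fun z => Real.log (φ z) := rfl
  rw [h2, h3] at h
  rw [h]
  have h4 : ∀ k, (pd S k (fun z => Real.log (φ z)) y) ^ 2
      = pd S k (fun z => Real.log (φ z)) y * pd S k (fun z => Real.log (φ z)) y := fun k => sq _
  simp_rw [h4]
  ring

theorem Ric_congr (hD : Dom S U) {g' : MF m} (h : ∀ z ∈ U, g z = g' z) {y : V m} (hy : y ∈ U)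
    (i j : Fin m) : Ric S g i j y = Ric S g' i j y := CY.Ric_congr hD h i j hy

theorem scal_congr (hD : Dom S U) {g' : MF m} (h : ∀ z ∈ U, g z = g' z) {y : V m} (hy : y ∈ U) :
    scal S g y = scal S g' y := CY.scal_congr hD h hy

/-- Divergence form of the Laplacian. -/
theorem lap_div (hD : Dom S U) (hg : MetOn U g 2) {f : V m → ℝ} (hf : ContDiffOn ℝ 2 f U) {y : V m}
    (hy : y ∈ U) :
    Real.sqrt (g y).det * lap S g f y =
      ∑ i, pd S i (fun z => Real.sqrt (g z).det * ∑ j, (g z)⁻¹ i j * pd S j f z) y :=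
  lap_div_form hD hg (by norm_num) hf hy

/-- The scalar curvature is continuous. -/
theorem continuousOn_scal (hD : Dom S U) (hg : MetOn U g 2) : ContinuousOn (scal S g) U :=
  CY.continuousOn_scal hD hg

end loc

section glob

variable {n : ℕ} {X : Type} [TopologicalSpace X] [ChartedSpace (EuclideanHalfSpace (n + 1)) X]
  [IsManifold (𝓡∂ (n + 1)) ∞ X]

/-- Chart invariance of the scalar curvature of the boundary. -/
theorem bscalX_eq (g : Metric n X) {e : OpenPartialHomeomorph X (EuclideanHalfSpace (n + 1))}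
    (he : e ∈ atlas (EuclideanHalfSpace (n + 1)) X) {p : X} (hp : p ∈ e.source)
    (hb : p ∈ (𝓡∂ (n + 1)).boundary X) : bscalX g p = scal univ (tang (g.G e)) (tl (co e p)) :=
  CY.bscalX_eq g he hp hb

theorem exists_conf (g : Metric n X) {u : X → ℝ} (hu : u ∈ PosSmooth n X) :
    ∃ h : Metric n X, IsConf u g h := CY.exists_conf g hu.1 hu.2

end glob

end Pool.Agent.CY.S6
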