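import Pool.Agent.CY.S6.Bubble

/-!
Project CY, part S6: the sharp Sobolev inequality for functions decaying like `|z|^{2-n}`, in the form with the
Laplacian (Euclidean analysis only).
-/

set_option autoImplicit false

open MeasureTheory Real Set Filter Topology
open scoped ENNReal ContDiff

namespace Pool.Agent.CY.S6

/-- The flat Laplacian. -/
noncomputable def lap0 {n : ℕ} (w : V n → ℝ) (z : V n) : ℝ := ∑ i, pd univ i (pd univ i w) z

theorem pd_univ {n : ℕ} (i : Fin n) (f : V n → ℝ) (z : V n) :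
    pd univ i f z = fderiv ℝ f z (EuclideanSpace.single i 1) := by
  rw [pd, fderivWithin_univ]

private theorem contDiff_pd1 {n : ℕ} {w : V n → ℝ} (hw : ContDiff ℝ 2 w) (i : Fin n) :
    ContDiff ℝ 1 (pd univ i w) := by
  have h : pd univ i w = fun z => fderiv ℝ w z (EuclideanSpace.single i 1) := by
    funext z
    exact pd_univ i w z
  rw [h]
  exact (hw.fderiv_right (m := 1) (by norm_num [one_add_one_eq_two])).clm_apply contDiff_const

theorem green_cut (n : ℕ) (w : V n → ℝ) (hw : ContDiff ℝ 2 w) (η : V n → ℝ) (hη : ContDiff ℝ ∞ η)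
    (hc : HasCompactSupport η) :
    ∫ z, ‖fderiv ℝ (fun x => η x * w x) z‖ ^ 2 =
      -(∫ z, η z ^ 2 * (w z * lap0 w z)) + ∫ z, w z ^ 2 * ‖fderiv ℝ η z‖ ^ 2 := by
  have hη1 : ContDiff ℝ 1 η := hη.of_le (by exact_mod_cast le_top)
  have hw1 : ContDiff ℝ 1 w := hw.of_le (by norm_num)
  have hηd : Differentiable ℝ η := hη1.differentiable (by simp)
  have hwd : Differentiable ℝ w := hw1.differentiable (by simp)
  have hη' : Continuous (fderiv ℝ η) := hη1.continuous_fderiv (by simp)
  have hw' : Continuous (fderiv ℝ w) := hw1.continuous_fderiv (by simp)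
  have hcη' : HasCompactSupport (fderiv ℝ η) := hc.fderiv ℝ
  have hp1 : ∀ i, ContDiff ℝ 1 (pd univ i w) := fun i => contDiff_pd1 hw i
  have hp0 : ∀ i, Continuous (pd univ i w) := fun i => (hp1 i).continuous
  have hpp : ∀ i, Continuous (fun z => pd univ i (pd univ i w) z) := by
    intro i
    have h : (fun z => pd univ i (pd univ i w) z)
        = fun z => fderiv ℝ (pd univ i w) z (EuclideanSpace.single i 1) := by
      funext z
      exact pd_univ i _ z
    rw [h]
    exact ((hp1 i).continuous_fderiv (by simp)).clm_apply continuous_const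
  -- integrations by parts
  have hibp : ∀ i : Fin n, ∫ z, (η z ^ 2 * w z) * pd univ i (pd univ i w) z
      = -∫ z, (2 * η z * fderiv ℝ η z (EuclideanSpace.single i 1) * w z
          + η z ^ 2 * pd univ i w z) * pd univ i w z := by
    intro i
    have hfd : ∀ z, HasFDerivAt (fun x => η x ^ 2 * w x)
        ((η z ^ 2) • fderiv ℝ w z + w z • ((2 * η z) • fderiv ℝ η z)) z := by
      intro z
      have h1 : HasFDerivAt (fun x => η x ^ 2) ((2 * η z) • fderiv ℝ η z) z := by
        have := (hηd z).hasFDerivAt.pow 2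
        simpa using this
      exact h1.mul (hwd z).hasFDerivAt
    have hfd2 : ∀ z, fderiv ℝ (fun x => η x ^ 2 * w x) z (EuclideanSpace.single i 1)
        = 2 * η z * fderiv ℝ η z (EuclideanSpace.single i 1) * w z + η z ^ 2 * pd univ i w z := by
      intro z
      rw [(hfd z).fderiv, pd_univ]
      simp only [add_apply, smul_apply, smul_eq_mul]
      ring
    have key := integral_mul_fderiv_eq_neg_fderiv_mul_of_integrable (μ := (volume : Measure (V n)))
      (f := fun x => η x ^ 2 * w x) (g := pd univ i w) (v := EuclideanSpace.single i (1 : ℝ))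
      ?_ ?_ ?_ (fun z _ => (hfd z).differentiableAt) (fun z _ => ((hp1 i).differentiable (by simp)) z)
    · simp_rw [hfd2] at key
      simp_rw [← pd_univ i (pd univ i w)] at key
      exact key
    · apply Continuous.integrable_of_hasCompactSupport
      · simp_rw [hfd2]
        have := hη1.continuous
        have := hw1.continuous
        have := hp0 i
        fun_prop
      · refine hc.mono ?_
        intro z hz
        rw [Function.mem_support] at hz ⊢
        intro h0
        apply hz
        rw [hfd2, h0]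
        ring
    · apply Continuous.integrable_of_hasCompactSupport
      · simp_rw [← pd_univ]
        exact ((hη1.continuous.pow 2).mul hw1.continuous).mul (hpp i)
      · refine hc.mono ?_
        intro z hz
        rw [Function.mem_support] at hz ⊢
        intro h0
        apply hz
        rw [h0]
        ring
    · apply Continuous.integrable_of_hasCompactSupport
      · exact ((hη1.continuous.pow 2).mul hw1.continuous).mul (hp0 i)
      · refine hc.mono ?_
        intro z hz
        rw [Function.mem_support] at hz ⊢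
        intro h0
        apply hz
        rw [h0]
        ring
  have hder : ∀ z i, fderiv ℝ (fun x => η x * w x) z (EuclideanSpace.single i 1)
      = fderiv ℝ η z (EuclideanSpace.single i 1) * w z + η z * pd univ i w z := by
    intro z i
    have h3 : fderiv ℝ (fun x => η x * w x) z = _ := fderiv_fun_mul (hηd z) (hwd z)
    rw [h3, pd_univ]
    simp only [add_apply, smul_apply, smul_eq_mul]
    ring
  have hcs : ∀ F : V n → ℝ, Continuous F → (∀ z, η z = 0 → fderiv ℝ η z = 0 → F z = 0) → Integrable F := by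
    intro F hF h0
    apply hF.integrable_of_hasCompactSupport
    have : HasCompactSupport (fun z => (η z, fderiv ℝ η z)) := by
      apply HasCompactSupport.of_support_subset_isCompact (hc.isCompact.union hcη'.isCompact)
      intro z hz
      rw [Function.mem_support] at hz
      by_cases h1 : η z = 0
      · right
        apply subset_tsupport
        rw [Function.mem_support]
        intro h2
        exact hz (by rw [h1, h2]; rfl)
      · left
        exact subset_tsupport _ h1
    refine this.mono ?_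
    intro z hz
    rw [Function.mem_support] at hz ⊢
    intro h1
    exact hz (h0 z (congrArg Prod.fst h1) (congrArg Prod.snd h1))
  have hηc := hη1.continuous
  have hwc := hw1.continuous
  have hI1 : ∀ i, Integrable (fun z => (fderiv ℝ η z (EuclideanSpace.single i 1)) ^ 2 * w z ^ 2) := by
    intro i
    apply hcs
    · fun_prop
    · intro z h1 h2
      rw [h2]
      simp
  have hI2 : ∀ i, Integrable (fun z => (2 * η z * fderiv ℝ η z (EuclideanSpace.single i 1) * w z
          + η z ^ 2 * pd univ i w z) * pd univ i w z) := by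
    intro i
    apply hcs
    · have := hp0 i
      fun_prop
    · intro z h1 h2
      rw [h1]
      simp
  have hA : ∀ i, ∫ z, (fderiv ℝ (fun x => η x * w x) z (EuclideanSpace.single i 1)) ^ 2
      = -(∫ z, (η z ^ 2 * w z) * pd univ i (pd univ i w) z)
        + ∫ z, (fderiv ℝ η z (EuclideanSpace.single i 1)) ^ 2 * w z ^ 2 := by
    intro i
    rw [hibp i, neg_neg, ← integral_add (hI2 i) (hI1 i)]
    apply integral_congr_ae
    refine Filter.Eventually.of_forall fun z => ?_
    simp only []
    rw [hder]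
    ring
  have hI3 : ∀ i, Integrable (fun z => (fderiv ℝ (fun x => η x * w x) z (EuclideanSpace.single i 1)) ^ 2) := by
    intro i
    apply hcs
    · simp_rw [hder]
      have := hp0 i
      fun_prop
    · intro z h1 h2
      rw [hder, h1, h2]
      simp
  have hI4 : ∀ i, Integrable (fun z => (η z ^ 2 * w z) * pd univ i (pd univ i w) z) := by
    intro i
    apply hcs
    · exact ((hηc.pow 2).mul hwc).mul (hpp i)
    · intro z h1 h2
      rw [h1]
      simp
  simp_rw [norm_sq_clm]
  rw [integral_finsetSum _ (fun i _ => hI3 i)]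
  simp_rw [hA]
  rw [Finset.sum_add_distrib, Finset.sum_neg_distrib, ← integral_finsetSum _ (fun i _ => hI4 i),
    ← integral_finsetSum _ (fun i _ => hI1 i)]
  congr 1
  · congr 1
    apply integral_congr_ae
    refine Filter.Eventually.of_forall fun z => ?_
    simp only [lap0]
    rw [← Finset.mul_sum]
    ring
  · apply integral_congr_ae
    refine Filter.Eventually.of_forall fun z => ?_
    simp only []
    rw [← Finset.sum_mul]
    ring

theorem sphere_core (n : ℕ) (hn : 3 ≤ n) (w : V n → ℝ) (hw : ContDiff ℝ 2 w) (hpos : ∀ z, 0 < w z)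
    (C : ℝ) (hC : ∀ z, w z ^ 2 ≤ C * (1 + ‖z‖ ^ 2) ^ (-((n : ℝ) - 2)))
    (hint : Integrable (fun z => w z * lap0 w z))
    (hsob : ∀ u : V n → ℝ, ContDiff ℝ 1 u → HasCompactSupport u →
      Yn n * (∫ x, |u x| ^ (2 * (n : ℝ) / ((n : ℝ) - 2))) ^ (((n : ℝ) - 2) / (n : ℝ)) ≤
        4 * ((n : ℝ) - 1) / ((n : ℝ) - 2) * ∫ x, ‖fderiv ℝ u x‖ ^ 2) :
    Yn n * (∫ z, w z ^ (2 * (n : ℝ) / ((n : ℝ) - 2))) ^ (((n : ℝ) - 2) / (n : ℝ)) ≤
      -(4 * ((n : ℝ) - 1) / ((n : ℝ) - 2)) * ∫ z, w z * lap0 w z := by
  have hn0 : (3 : ℝ) ≤ n := by exact_mod_cast hn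
  have hn2 : (0 : ℝ) < (n : ℝ) - 2 := by linarith
  have hw1 : ContDiff ℝ 1 w := hw.of_le (by norm_num)
  have hwc := hw1.continuous
  have hC0 : 0 ≤ C := by
    have h1 := hC 0
    simp only [norm_zero] at h1
    norm_num at h1
    nlinarith [sq_nonneg (w 0)]
  obtain ⟨χ, M, hM, hχd, hχc, hχb, hχ1, hχM⟩ := exists_cutoff n
  have hk1 : ∀ k : ℕ, (1 : ℝ) ≤ (k : ℝ) + 1 := fun k => by
    have : (0 : ℝ) ≤ k := Nat.cast_nonneg k
    linarith
  have hev : ∀ x : EuclideanSpace ℝ (Fin n), ∀ᶠ k : ℕ in atTop, ‖x‖ < (k : ℝ) + 1 := by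
    intro x
    filter_upwards [eventually_ge_atTop ⌈‖x‖⌉₊] with k hk
    have h1 : ‖x‖ ≤ (k : ℝ) := (Nat.le_ceil _).trans (by exact_mod_cast hk)
    linarith
  set p : ℝ := 2 * (n : ℝ) / ((n : ℝ) - 2) with hp
  have hp0 : 0 < p := by positivity
  -- the power of `w` is integrable
  have hwp : Integrable (fun z => w z ^ p) := by
    have hs : (n : ℝ) / 2 < n := by linarith
    refine ((integrable_J n hs).const_mul (C ^ ((n : ℝ) / ((n : ℝ) - 2)))).mono' ?_ ?_
    · exact (hwc.rpow_const fun x => Or.inr hp0.le).aestronglyMeasurable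
    · refine Filter.Eventually.of_forall fun z => ?_
      have hA : 0 < 1 + ‖z‖ ^ 2 := by positivity
      have hwz := hpos z
      rw [Real.norm_eq_abs, abs_of_nonneg (Real.rpow_nonneg hwz.le _)]
      have h1 : w z ^ p = (w z ^ 2) ^ ((n : ℝ) / ((n : ℝ) - 2)) := by
        rw [← Real.rpow_natCast, ← Real.rpow_mul hwz.le]
        congr 1
        rw [hp]
        push_cast
        ring
      rw [h1]
      refine (Real.rpow_le_rpow (sq_nonneg _) (hC z) (by positivity)).trans ?_
      rw [Real.mul_rpow hC0 (Real.rpow_nonneg hA.le _), ← Real.rpow_mul hA.le]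
      have h2 : -((n : ℝ) - 2) * ((n : ℝ) / ((n : ℝ) - 2)) = -(n : ℝ) := by field_simp
      rw [h2]
  -- limits
  have hL1 : Tendsto (fun k : ℕ => ∫ z, χ ((k : ℝ) + 1) z ^ 2 * (w z * lap0 w z)) atTop
      (𝓝 (∫ z, w z * lap0 w z)) := by
    refine tendsto_integral_of_dominated_convergence (fun z => |w z * lap0 w z|) ?_ hint.abs ?_ ?_
    · intro k
      exact (((hχd _ (hk1 k)).continuous.pow 2).aestronglyMeasurable).mul hint.aestronglyMeasurable
    · intro k
      refine Filter.Eventually.of_forall fun z => ?_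
      obtain ⟨h1, h2⟩ := hχb ((k : ℝ) + 1) z
      rw [Real.norm_eq_abs, abs_mul, abs_of_nonneg (sq_nonneg _)]
      have h3 : χ ((k : ℝ) + 1) z ^ 2 ≤ 1 := by nlinarith
      nlinarith [abs_nonneg (w z * lap0 w z)]
    · refine Filter.Eventually.of_forall fun z => ?_
      refine tendsto_const_nhds.congr' ?_
      filter_upwards [hev z] with k hk
      have h1 := (hχ1 (k + 1) z (hk1 k) hk).self_of_nhds
      rw [h1]
      ring
  have hL2 : Tendsto (fun k : ℕ => ∫ z, w z ^ 2 * ‖fderiv ℝ (χ ((k : ℝ) + 1)) z‖ ^ 2) atTop (𝓝 0) := by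
    have hs' : (n : ℝ) / 2 < (n : ℝ) - 1 := by linarith
    rw [show (0 : ℝ) = ∫ z : V n, (0 : ℝ) by simp]
    refine tendsto_integral_of_dominated_convergence
      (fun z => (n * M ^ 2 * C) * (1 + ‖z‖ ^ 2) ^ (-((n : ℝ) - 1))) ?_
      ((integrable_J n hs').const_mul _) ?_ ?_
    · intro k
      apply Continuous.aestronglyMeasurable
      have := (hχd _ (hk1 k)).continuous_fderiv (by simp)
      fun_prop
    · intro k
      refine Filter.Eventually.of_forall fun z => ?_
      have hA : 0 < 1 + ‖z‖ ^ 2 := by positivity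
      rw [Real.norm_eq_abs, abs_of_nonneg (by positivity)]
      have h1 : ‖fderiv ℝ (χ ((k : ℝ) + 1)) z‖ ^ 2 ≤ n * (M ^ 2 / (1 + ‖z‖ ^ 2)) := by
        rw [norm_sq_clm]
        have h2 : ∀ i ∈ (Finset.univ : Finset (Fin n)),
            (fderiv ℝ (χ ((k : ℝ) + 1)) z (EuclideanSpace.single i 1)) ^ 2 ≤ M ^ 2 / (1 + ‖z‖ ^ 2) := by
          intro i _
          have h3 := hχM (k + 1) z i (hk1 k)
          have h4 := pow_le_pow_left₀ (abs_nonneg _) h3 2
          rw [sq_abs, div_pow, Real.sq_sqrt hA.le] at h4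
          exact h4
        refine (Finset.sum_le_sum h2).trans ?_
        simp
      calc w z ^ 2 * ‖fderiv ℝ (χ ((k : ℝ) + 1)) z‖ ^ 2
          ≤ (C * (1 + ‖z‖ ^ 2) ^ (-((n : ℝ) - 2))) * (n * (M ^ 2 / (1 + ‖z‖ ^ 2))) :=
            mul_le_mul (hC z) h1 (sq_nonneg _) (by positivity)
        _ = (n * M ^ 2 * C) * (1 + ‖z‖ ^ 2) ^ (-((n : ℝ) - 1)) := by
            have e : -((n : ℝ) - 1) = -((n : ℝ) - 2) - 1 := by ring
            rw [e, Real.rpow_sub hA, Real.rpow_one]
            ring
    · refine Filter.Eventually.of_forall fun z => ?_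
      refine tendsto_const_nhds.congr' ?_
      filter_upwards [hev z] with k hk
      have h1 : fderiv ℝ (χ ((k : ℝ) + 1)) z = fderiv ℝ (fun _ : EuclideanSpace ℝ (Fin n) => (1 : ℝ)) z :=
        (hχ1 (k + 1) z (hk1 k) hk).fderiv_eq
      rw [h1]
      simp
  have hL3 : Tendsto (fun k : ℕ => ∫ z, |χ ((k : ℝ) + 1) z * w z| ^ p) atTop (𝓝 (∫ z, w z ^ p)) := by
    refine tendsto_integral_of_dominated_convergence (fun z => w z ^ p) ?_ hwp ?_ ?_
    · intro k
      apply Continuous.aestronglyMeasurable
      exact (((hχd _ (hk1 k)).continuous.mul hwc).abs).rpow_const fun x => Or.inr hp0.le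
    · intro k
      refine Filter.Eventually.of_forall fun z => ?_
      obtain ⟨h1, h2⟩ := hχb ((k : ℝ) + 1) z
      have hwz := hpos z
      rw [Real.norm_eq_abs, abs_of_nonneg (Real.rpow_nonneg (abs_nonneg _) _)]
      apply Real.rpow_le_rpow (abs_nonneg _) _ hp0.le
      rw [abs_of_nonneg (mul_nonneg h1 hwz.le)]
      exact mul_le_of_le_one_left hwz.le h2
    · refine Filter.Eventually.of_forall fun z => ?_
      refine tendsto_const_nhds.congr' ?_
      filter_upwards [hev z] with k hk
      have h1 := (hχ1 (k + 1) z (hk1 k) hk).self_of_nhds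
      rw [h1, one_mul, abs_of_pos (hpos z)]
  have hIpos : 0 < ∫ z, w z ^ p := by
    rw [integral_pos_iff_support_of_nonneg_ae]
    · have : Function.support (fun z => w z ^ p) = univ := by
        ext z
        simp [(Real.rpow_pos_of_pos (hpos z) p).ne']
      rw [this]
      exact isOpen_univ.measure_pos _ univ_nonempty
    · exact Filter.Eventually.of_forall fun z => Real.rpow_nonneg (hpos z).le _
    · exact hwp
  have hlim1 : Tendsto (fun k : ℕ => Yn n * (∫ z, |χ ((k : ℝ) + 1) z * w z| ^ p) ^ (((n : ℝ) - 2) / (n : ℝ)))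
      atTop (𝓝 (Yn n * (∫ z, w z ^ p) ^ (((n : ℝ) - 2) / (n : ℝ)))) :=
    (hL3.rpow_const (Or.inl hIpos.ne')).const_mul _
  have hlim2 : Tendsto (fun k : ℕ => 4 * ((n : ℝ) - 1) / ((n : ℝ) - 2) *
      (-(∫ z, χ ((k : ℝ) + 1) z ^ 2 * (w z * lap0 w z))
        + ∫ z, w z ^ 2 * ‖fderiv ℝ (χ ((k : ℝ) + 1)) z‖ ^ 2))
      atTop (𝓝 (4 * ((n : ℝ) - 1) / ((n : ℝ) - 2) * (-(∫ z, w z * lap0 w z) + 0))) :=
    (hL1.neg.add hL2).const_mul _
  have hle := le_of_tendsto_of_tendsto' hlim1 hlim2 (fun k => by
    have h1 := hsob (fun x => χ ((k : ℝ) + 1) x * w x)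
      (((hχd _ (hk1 k)).of_le (by exact_mod_cast le_top)).mul hw1) ((hχc _ (hk1 k)).mul_right)
    rw [green_cut n w hw _ (hχd _ (hk1 k)) (hχc _ (hk1 k))] at h1
    exact h1)
  rw [add_zero] at hle
  linarith

end Pool.Agent.CY.S6
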